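import Pool.Agent.V11168.Pair.Main

/-! The case where the base is a point. -/

set_option autoImplicit false
set_option linter.overlappingInstances false
set_option linter.unusedSectionVars false

open FF IntermediateField Pool.Agent.W619.PQ Pool.Agent.W619.PL Pool.Agent.W619.TW
  Pool.Agent.W603.LV Pool.Agent.W619.Y Pool.Agent.Y174

namespace Pool.Agent.V11168.Pair

/-- there are no places on a field of constants -/
theorem no_place {k K : Type} [Field k] [IsAlgClosed k] [Field K] [Algebra k K]
    (hK : Algebra.trdeg k K = (0 : ℕ)) (v : Place k K) : False := by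
  have halg : Algebra.IsAlgebraic k K := by
    rw [← _root_.trdeg_eq_zero_iff, hK, Nat.cast_zero]
  obtain ⟨s, hs0, hs⟩ := v.surj
  obtain ⟨c, rfl⟩ := (IsAlgClosed.algebraMap_bijective_of_isIntegral (k := k) (K := K)).2 s
  have hc : c ≠ 0 := by
    rintro rfl
    exact hs0 (map_zero _)
  rw [v.ord_const hc] at hs
  exact zero_ne_one hs

/-- the Kodaira dimension of a point is zero -/
theorem pairKod_point {k K : Type} [Field k] [IsAlgClosed k] [Field K] [Algebra k K]
    (hK : Algebra.trdeg k K = (0 : ℕ)) (δ : Place k K → ℝ) : PairKod k K 0 δ 0 := by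
  refine ⟨1, le_rfl, fun _ _ => 1, fun l => ⟨fun A D => ?_, fun v _ _ _ => (no_place hK v).elim⟩,
    fun i => i.elim0, fun l => one_ne_zero, algebraicIndependent_empty_type⟩
  rw [Matrix.det_isEmpty, one_pow, one_mul]

end Pool.Agent.V11168.Pair
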