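import Pool.Agent.V11168.Abund.Up
import Pool.Agent.Y174.B5

/-! The upper bound for the numerical dimension of a pair with vector fields tangent to the
horizontal part of the boundary. -/

set_option autoImplicit false
set_option linter.overlappingInstances false
set_option linter.unusedSectionVars false

open FF IntermediateField Pool.Agent.W619.PQ Pool.Agent.W619.PL Pool.Agent.W619.TW
  Pool.Agent.W603.LV Pool.Agent.W619.Y Pool.Agent.TH122.AB MvPolynomial Pool.Agent.Y173.QA
  Pool.Agent.V11168.Abund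

namespace Pool.Agent.V11168.Pair

variable {k : Type} [Field k] [CharZero k] {L : Type} [Field L] [Algebra k L]

/-- coordinates at a horizontal place, which contain the base coordinates -/
theorem hor_frame {a r' : ℕ} (htr : Algebra.trdeg k L = (a + (r' + 1) : ℕ))
    (hfin : ∀ y : Fin (a + (r' + 1)) → L, IsTranscendenceBasis k y →
      FiniteDimensional (IntermediateField.adjoin k (Set.range y)) L)
    {t : Fin a → L} {B : Set L} {x : Fin (r' + 1) → L} (hch : Chart k t B x)
    {p : MvPolynomial (Fin (a + (r' + 1))) k} {l0 : Fin (r' + 1)}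
    (hl0 : degreeOf (Fin.natAdd a l0) p ≠ 0) {P : Place k L}
    (hP : Adic (Fin.append t x) p P) :
    ∃ (s : L) (y : Fin (a + r') → L) (E : Fin ((a + r') + 1) → Derivation k L L)
      (F : Fin a → Derivation k L L), P.ord s = 1 ∧ (∀ j, P.Reg (y j)) ∧
      IsTranscendenceBasis k (Fin.cons s y : Fin ((a + r') + 1) → L) ∧
      (∀ i j, E i ((Fin.cons s y : Fin ((a + r') + 1) → L) j) = if i = j then 1 else 0) ∧
      (∀ i, Pres P (E i)) ∧ (∀ j, Pres P (F j)) ∧
      (∀ j l, F j (t l) = if j = l then 1 else 0) ∧ ∀ j, F j s = 0 := by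
  classical
  let b0 : Fin ((a + r') + 1) := Fin.natAdd a l0
  let Z : Fin ((a + r') + 1) → L := (Fin.append t x : Fin (a + (r' + 1)) → L)
  let y : Fin (a + r') → L := fun j => Z (b0.succAbove j)
  have hy : ∀ q : MvPolynomial (Fin (a + r')) k, q ≠ 0 →
      aeval y q ≠ 0 ∧ P.ord (aeval y q) = 0 := by
    intro q hq
    have h0 : rename b0.succAbove q ≠ 0 :=
      (map_ne_zero_iff _ (rename_injective _ Fin.succAbove_right_injective)).2 hq
    have h1 : aeval Z (rename b0.succAbove q) = aeval y q := by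
      rw [aeval_rename]
      rfl
    have h2 := (hP (rename b0.succAbove q) h0).2.2 (not_dvd_succAbove (b := b0) hl0 hq)
    change P.ord (aeval Z (rename b0.succAbove q)) = 0 at h2
    rw [h1] at h2
    refine ⟨?_, h2⟩
    rw [← h1]
    intro h3
    exact h0 ((injective_iff_map_eq_zero _).1 hch.bas.1 _ h3)
  obtain ⟨s, hs0, hs⟩ := P.surj
  obtain ⟨hbas, E, hE1, hE2⟩ := frame_of (m := a + r') htr hfin P hs hy
  have hne : ∀ j : Fin a, (Fin.castAdd (r' + 1) j : Fin ((a + r') + 1)) ≠ b0 := by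
    intro j h
    have h1 := congrArg Fin.val h
    change (j : ℕ) = a + (l0 : ℕ) at h1
    have := j.2
    omega
  choose j' hj' using fun j : Fin a => Fin.exists_succAbove_eq (hne j)
  refine ⟨s, y, E, fun j => E (j' j).succ, hs, fun j => ?_, hbas, hE1, hE2, fun j => hE2 _,
    fun j l => ?_, fun j => ?_⟩
  · have h1 := (hy (X j) (X_ne_zero _)).2
    rw [aeval_X] at h1
    exact Or.inr h1.ge
  · have h1 := hE1 (j' j).succ (j' l).succ
    rw [Fin.cons_succ] at h1
    have h2 : y (j' l) = t l := by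
      change Z (b0.succAbove (j' l)) = t l
      rw [hj']
      exact Fin.append_left t x l
    rw [h2] at h1
    rw [h1]
    have h3 : (j' j).succ = (j' l).succ ↔ j = l := by
      rw [Fin.succ_inj]
      constructor
      · intro h4
        have h5 := congrArg b0.succAbove h4
        rw [hj', hj'] at h5
        exact Fin.castAdd_injective a (r' + 1) h5
      · rintro rfl
        rfl
    by_cases hjl : j = l
    · rw [if_pos hjl, if_pos (h3.2 hjl)]
    · rw [if_neg hjl, if_neg (fun h => hjl (h3.1 h))]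
  · have h1 := hE1 (j' j).succ 0
    rw [Fin.cons_zero, if_neg (Fin.succ_ne_zero _)] at h1
    exact h1

/-- The condition on the boundary at the horizontal places. -/
def HorBd {a r : ℕ} (t : Fin a → L) (U : Fin r → Derivation k L L) (δ : Place k L → ℝ) : Prop :=
  ∀ P : Place k L, IsDivisorial P (a + r) →
    (∀ q : MvPolynomial (Fin a) k, q ≠ 0 → P.ord (aeval t q) = 0) →
    δ P ≤ 0 ∨ (δ P ≤ 1 ∧ ∀ i z, P.Reg (U i z / z))

theorem dom_horP {a r : ℕ} (htr : Algebra.trdeg k L = (a + r : ℕ))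
    (hfin : ∀ y : Fin (a + r) → L, IsTranscendenceBasis k y →
      FiniteDimensional (IntermediateField.adjoin k (Set.range y)) L)
    {t : Fin a → L} {B : Set L} {x : Fin r → L} (hch : Chart k t B x)
    (htop : IntermediateField.adjoin k B = ⊤) {U : Fin r → Derivation k L L}
    (hUt : ∀ i j, U i (t j) = 0) (hUB : ∀ i, ∀ b ∈ B, U i b ∈ Algebra.adjoin k B)
    (hUspan : ∀ D : Derivation k L L, (∀ j, D (t j) = 0) → ∃ c : Fin r → L, D = ∑ i, c i • U i)
    {F : Fin a → Derivation k L L} (hF : ∀ j l, F j (t l) = if j = l then 1 else 0)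
    {δ : Place k L → ℝ} (hδ : HorBd t U δ)
    {S : Finset L} {m : ℕ} {ω : (Fin (a + r) → Derivation k L L) → L}
    (hω : Y174.PairSec k L (a + r) δ S m 1 ω)
    {p : MvPolynomial (Fin (a + r)) k} (hp : Irreducible p) (hpv : ¬ Vert p) {P : Place k L}
    (hP : Adic (Fin.append t x) p P) : Dom P S 1 (ω (Fin.append F U)) := by
  classical
  obtain ⟨l0, hl0⟩ := exists_of_not_vert hpv
  obtain ⟨hdiv, hU, F', hF', hF't⟩ := hor htr hfin hch htop hUt hUB hp hl0 hP
  rcases hδ P hdiv (ord_vert hl0 hP) with h0 | ⟨h1, hlg⟩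
  · rw [phi_eq hUspan hω.1 (F := F) (F' := F') fun j l => by rw [hF, hF't]]
    rcases hω.2 P hdiv (Fin.append F' U) (fun l => by
      refine Fin.addCases (fun j => ?_) (fun j => ?_) l
      · rw [Fin.append_left]
        exact hF' j
      · rw [Fin.append_right]
        exact hU j) with h | ⟨s, hs, hs0, hle⟩
    · exact Or.inl h
    · refine Or.inr ⟨s, hs, hs0, ?_⟩
      have h2 : (m : ℝ) * δ P ≤ 0 := mul_nonpos_of_nonneg_of_nonpos (Nat.cast_nonneg m) h0
      have h3 : ((1 : ℕ) : ℝ) * (P.ord s : ℝ) ≤ (P.ord (ω (Fin.append F' U)) : ℝ) := by linarith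
      exact_mod_cast h3
  · obtain ⟨r', rfl⟩ : ∃ r', r = r' + 1 := Nat.exists_eq_succ_of_ne_zero (by
      rintro rfl
      exact l0.elim0)
    obtain ⟨s, y, E, F2, hs, hyr, hbas, hE1, hE2, hF2, hF2t, hF2s⟩ :=
      hor_frame htr hfin hch hl0 hP
    rw [phi_eq hUspan hω.1 (F := F) (F' := F2) fun j l => by rw [hF, hF2t]]
    have h2 := pluri_zero (K := (⊥ : IntermediateField k L)) (n := a + (r' + 1)) hω.1
      (z := (Fin.cons s y : Fin ((a + r') + 1) → L)) hbas (E := E) hE1 (Fin.append F2 U)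
    rw [h2]
    have hs0 : s ≠ 0 := by
      rintro rfl
      rw [P.ord_zero] at hs
      norm_num at hs
    have hPres : ∀ i, Pres P ((Fin.append F2 U : Fin (a + (r' + 1)) → Derivation k L L) i) := by
      intro i
      refine Fin.addCases (fun j => ?_) (fun j => ?_) i
      · rw [Fin.append_left]
        exact hF2 j
      · rw [Fin.append_right]
        exact hU j
    have hcol : ∀ j : Fin (a + (r' + 1)),
        Ge P 1 ((Fin.append F2 U : Fin (a + (r' + 1)) → Derivation k L L) j s) := by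
      intro j
      refine Fin.addCases (fun j => ?_) (fun j => ?_) j
      · rw [Fin.append_left, hF2s]
        exact Ge.zero
      · rw [Fin.append_right]
        have h3 : Ge P 0 (U j s / s) := hlg j s
        have h4 : Ge P 1 s := Or.inr hs.ge
        have h5 := h3.mul h4
        rwa [div_mul_cancel₀ _ hs0, zero_add] at h5
    have hdet : Ge P 1 (Matrix.of fun (i j : Fin (a + (r' + 1))) => (Fin.append F2 U : Fin (a + (r' + 1)) →
        Derivation k L L) i ((Fin.cons s y : Fin ((a + r') + 1) → L) j)).det := by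
      rw [← Matrix.det_transpose]
      let bd : Fin ((a + r') + 1) → ℤ := Fin.cons 1 (fun _ => 0)
      have hsum : ∑ i, bd i = 1 := by
        rw [Fin.sum_univ_succ]
        simp [bd]
      rw [← hsum]
      refine ge_det_row (ι := Fin ((a + r') + 1)) P _ bd fun i j => ?_
      rw [Matrix.transpose_apply, Matrix.of_apply]
      refine Fin.cases ?_ (fun i => ?_) i
      · rw [Fin.cons_zero]
        exact hcol j
      · rw [Fin.cons_succ]
        exact hPres j _ (hyr i)
    rcases hω.2 P hdiv E (fun l => hE2 l) with h | ⟨s', hs', hs0', hle⟩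
    · left
      rw [h, mul_zero]
    · by_cases hE0 : ω E = 0
      · left
        rw [hE0, mul_zero]
      by_cases hd0 : (Matrix.of fun (i j : Fin (a + (r' + 1))) => (Fin.append F2 U : Fin (a + (r' + 1)) →
        Derivation k L L) i ((Fin.cons s y : Fin ((a + r') + 1) → L) j)).det ^ m = 0
      · left
        rw [hd0, zero_mul]
      refine Or.inr ⟨s', hs', hs0', ?_⟩
      have h3 := (Y174.GeR.mul (Y174.Ge.toR (hdet.pow m)) (Or.inr hle : Y174.GeR P _ (ω E))).resolve_left
        (mul_ne_zero hd0 hE0)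
      have h4 : (m : ℝ) * δ P ≤ m * 1 := mul_le_mul_of_nonneg_left h1 (Nat.cast_nonneg m)
      have h5 : ((1 : ℕ) : ℝ) * (P.ord s' : ℝ) ≤ (P.ord ((Matrix.of fun (i j : Fin (a + (r' + 1))) =>
        (Fin.append F2 U : Fin (a + (r' + 1)) →
        Derivation k L L) i ((Fin.cons s y : Fin ((a + r') + 1) → L) j)).det ^ m * ω E) : ℝ) := by
        refine le_trans ?_ h3
        push_cast
        linarith
      exact_mod_cast h5

/-- the poles at the places which are trivial on the base coordinates are bounded -/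
theorem x_infP {a r N : ℕ} (htr : Algebra.trdeg k L = (a + r : ℕ))
    (hfin : ∀ y : Fin (a + r) → L, IsTranscendenceBasis k y →
      FiniteDimensional (IntermediateField.adjoin k (Set.range y)) L)
    {t : Fin a → L} (ht : AlgebraicIndependent k t) {z : Fin (N + 1) → L} (hz0 : ∀ i, z i ≠ 0)
    (htop : ∀ i, IntermediateField.adjoin k (Set.range fun j => z j / z i) = ⊤)
    {U : Fin r → Derivation k L L} (hUt : ∀ i j, U i (t j) = 0)
    (hUB : ∀ l i j, U l (z j / z i) ∈ Algebra.adjoin k (Set.range fun j => z j / z i))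
    (hUspan : ∀ D : Derivation k L L, (∀ j, D (t j) = 0) → ∃ c : Fin r → L, D = ∑ i, c i • U i)
    {F : Fin a → Derivation k L L} (hF : ∀ j l, F j (t l) = if j = l then 1 else 0)
    {δ : Place k L → ℝ} (hδ : HorBd t U δ) (S : Finset L) (w : Place k L)
    (hq : ∀ q : MvPolynomial (Fin a) k, q ≠ 0 → w.ord (aeval t q) = 0) :
    ∃ c : ℕ, ∀ (m : ℕ) (ω : (Fin (a + r) → Derivation k L L) → L),
      Y174.PairSec k L (a + r) δ S m 1 ω → Ge w (-(c : ℤ)) (ω (Fin.append F U)) := by
  classical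
  obtain ⟨i, hi⟩ := Finite.exists_min fun i => w.ord (z i)
  obtain ⟨x, hch⟩ := exists_chart htr ht (Set.finite_range fun j => z j / z i) (htop i)
  have hZ := hch.bas
  have hBw : ∀ b ∈ Set.range (fun j => z j / z i), w.Reg b := by
    rintro _ ⟨j, rfl⟩
    right
    change 0 ≤ w.ord (z j / z i)
    rw [w.ord_div (hz0 j) (hz0 i)]
    have := hi j
    linarith
  have hxw' : ∀ y ∈ Algebra.adjoin (IntermediateField.adjoin k (Set.range t))
      (Set.range fun j => z j / z i), w.Reg y := by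
    intro y hy
    induction hy using Algebra.adjoin_induction with
    | mem y hy => exact hBw y hy
    | algebraMap c => exact Or.inr (ord_base hq c.2).ge
    | add y y' _ _ hy hy' => exact w.reg_add hy hy'
    | mul y y' _ _ hy hy' => exact w.reg_mul hy hy'
  have hxw : ∀ l, w.Reg (x l) := fun l => hxw' _ (hch.mem l)
  -- the common denominator of `S`
  choose q hq0 hqi using fun s : L => exists_mult hZ s
  obtain ⟨Q, hQ⟩ : ∃ Q, Q = ∏ s ∈ S, q s := ⟨_, rfl⟩
  have hQ0 : Q ≠ 0 := by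
    rw [hQ]
    exact Finset.prod_ne_zero_iff.2 fun s _ => hq0 _
  have hQZ : aeval (Fin.append t x) Q ≠ 0 := fun h0 =>
    hQ0 ((injective_iff_map_eq_zero _).1 hZ.1 _ h0)
  have hQS : ∀ s ∈ S, ∀ P : Place k L,
      (∀ f : MvPolynomial (Fin (a + r)) k, P.Reg (aeval (Fin.append t x) f)) →
      P.Reg (aeval (Fin.append t x) Q * s) := by
    intro s hs P hP
    rw [hQ, ← Finset.mul_prod_erase S q hs, map_mul, mul_comm (aeval _ (q s)), mul_assoc]
    exact P.reg_mul (hP _) (reg_of_int hP (hqi s))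
  refine ⟨(w.ord (aeval (Fin.append t x) Q)).natAbs, fun m ω hω => ?_⟩
  have h1 : w.Reg (aeval (Fin.append t x) Q * ω (Fin.append F U)) := by
    refine hartogs hZ (hfin _ hZ) (fun p hp hpv P hP => ?_) hq hxw
    have h2 := dom_horP htr hfin hch (htop i) hUt (fun l b hb => by
      obtain ⟨j, rfl⟩ := hb
      exact hUB l i j) hUspan hF hδ hω hp hpv hP
    rcases h2 with h2 | ⟨s, hs, hs0, h2⟩
    · rw [h2, mul_zero]
      exact P.reg_zero
    · by_cases h0 : ω (Fin.append F U) = 0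
      · rw [h0, mul_zero]
        exact P.reg_zero
      have h3 := (hQS s hs P (adic_reg hP)).resolve_left (mul_ne_zero hQZ hs0)
      right
      rw [P.ord_mul hQZ hs0] at h3
      rw [P.ord_mul hQZ h0]
      push_cast at h2
      linarith
  by_cases h0 : ω (Fin.append F U) = 0
  · exact Or.inl h0
  right
  have h2 := h1.resolve_left (mul_ne_zero hQZ h0)
  rw [w.ord_mul hQZ h0] at h2
  omega

/-- linear lower bound for the orders of the sections at a divisorial place -/
theorem lin_boundP {K' : Type} [Field K'] [Algebra k K'] {n : ℕ} (htr : Algebra.trdeg k K' = n)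
    (hfin : ∀ y : Fin n → K', IsTranscendenceBasis k y →
      FiniteDimensional (IntermediateField.adjoin k (Set.range y)) K')
    {w : Place k K'} (hw : IsDivisorial w n) (E : Fin n → Derivation k K' K') (S : Finset K')
    (c : K') (δ : Place k K' → ℝ) :
    ∃ C : ℕ, ∀ (m : ℕ) (ω : (Fin n → Derivation k K' K') → K'), 1 ≤ m →
      Y174.PairSec k K' n δ S m 1 ω → Ge w (-((C * m : ℕ) : ℤ)) (c ^ m * ω E) := by
  classical
  obtain ⟨y, F, i0, hy, hFy, hi0, hyreg, hF⟩ := pFRAME k K' n htr hfin w hw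
  obtain ⟨M, hM⟩ : ∃ M : Matrix (Fin n) (Fin n) K', M = Matrix.of fun b c => E b (y c) := ⟨_, rfl⟩
  have hEF : E = fun b => ∑ c, M b c • F c := by
    funext b
    rw [der_expand hy hFy (E b), hM]
    rfl
  obtain ⟨dn, hdn⟩ : ∃ dn : ℕ, δ w ≤ dn := exists_nat_ge _
  obtain ⟨C, hC⟩ : ∃ C : ℕ, (w.ord c).natAbs + (w.ord M.det).natAbs +
    ∑ s ∈ S, (w.ord s).natAbs + dn ≤ C := ⟨_, le_rfl⟩
  refine ⟨C, fun m ω hm hω => ?_⟩
  have h1 := hω.1 M F
  rw [← hEF] at h1
  rw [h1]
  by_cases hc0 : c = 0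
  · left
    rw [hc0, zero_pow (by omega), zero_mul]
  by_cases hM0 : M.det = 0
  · left
    rw [hM0, zero_pow (by omega), zero_mul, mul_zero]
  by_cases hF0 : ω F = 0
  · left
    rw [hF0, mul_zero, mul_zero]
  obtain ⟨s, hs, hs0, hle'⟩ := (hω.2 w hw F hF).resolve_left hF0
  have hle : (w.ord s : ℤ) - m * dn ≤ w.ord (ω F) := by
    have h1 : (m : ℝ) * δ w ≤ m * dn := mul_le_mul_of_nonneg_left hdn (Nat.cast_nonneg m)
    have h2 : (w.ord s : ℝ) - m * dn ≤ (w.ord (ω F) : ℝ) := by
      push_cast at hle'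
      linarith
    exact_mod_cast h2
  right
  rw [w.ord_mul (pow_ne_zero _ hc0) (mul_ne_zero (pow_ne_zero _ hM0) hF0),
    w.ord_mul (pow_ne_zero _ hM0) hF0, w.ord_pow, w.ord_pow]
  have h2 : (w.ord s).natAbs ≤ ∑ s ∈ S, (w.ord s).natAbs :=
    Finset.single_le_sum (f := fun s => (w.ord s).natAbs) (fun _ _ => Nat.zero_le _) hs
  have h3 : ((w.ord c).natAbs : ℤ) + (w.ord M.det).natAbs + (w.ord s).natAbs + dn ≤ C := by
    exact_mod_cast (by omega :
      (w.ord c).natAbs + (w.ord M.det).natAbs + (w.ord s).natAbs + dn ≤ C)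
  have h4 : -((w.ord c).natAbs : ℤ) ≤ w.ord c := by omega
  have h5 : -((w.ord M.det).natAbs : ℤ) ≤ w.ord M.det := by omega
  have h6 : -((w.ord s).natAbs : ℤ) ≤ w.ord s := by omega
  have hm' : (1 : ℤ) ≤ m := by exact_mod_cast hm
  push_cast
  have h7 : (C : ℤ) * m ≥ (((w.ord c).natAbs : ℤ) + (w.ord M.det).natAbs +
      (w.ord s).natAbs + dn) * m := mul_le_mul_of_nonneg_right h3 (by linarith)
  have h8 : (m : ℤ) * (-((w.ord c).natAbs : ℤ)) ≤ m * w.ord c :=
    mul_le_mul_of_nonneg_left h4 (by linarith)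
  have h9 : (m : ℤ) * (-((w.ord M.det).natAbs : ℤ)) ≤ m * w.ord M.det :=
    mul_le_mul_of_nonneg_left h5 (by linarith)
  have h10 : ((w.ord s).natAbs : ℤ) * 1 ≤ ((w.ord s).natAbs : ℤ) * m :=
    mul_le_mul_of_nonneg_left hm' (by positivity)
  nlinarith

/-- a vertical polynomial which bounds the boundary at the vertical places -/
theorem exists_bd {a r : ℕ} {Z : Fin (a + r) → L} (hZ : IsTranscendenceBasis k Z)
    {δ : Place k L → ℝ} {T0 : Finset L}
    (hT0 : ∀ P : Place k L, IsDivisorial P (a + r) → ∃ g ∈ T0, g ≠ 0 ∧ δ P ≤ (P.ord g : ℝ)) :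
    ∃ r1 : MvPolynomial (Fin (a + r)) k, r1 ≠ 0 ∧ Vert r1 ∧
      ∀ p : MvPolynomial (Fin (a + r)) k, Irreducible p → Vert p →
        ∀ P : Place k L, Adic Z p P → δ P ≤ (P.ord (aeval Z r1) : ℝ) := by
  classical
  choose q hq0 hqi using fun s : L => exists_mult hZ s
  obtain ⟨Q, hQ⟩ : ∃ Q, Q = ∏ s ∈ T0, q s⁻¹ := ⟨_, rfl⟩
  have hQ0 : Q ≠ 0 := by
    rw [hQ]
    exact Finset.prod_ne_zero_iff.2 fun s _ => hq0 _
  obtain ⟨r0, Q', hr0, hQr, hQ'⟩ := exists_vert_part hQ0
  have hr00 : r0 ≠ 0 := by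
    rintro rfl
    exact hQ0 (by rw [hQr, zero_mul])
  have hQ'0 : Q' ≠ 0 := by
    rintro rfl
    exact hQ0 (by rw [hQr, mul_zero])
  refine ⟨r0, hr00, hr0, fun p hp hpv P hP => ?_⟩
  obtain ⟨g, hg, hg0, hle⟩ := hT0 P (adic_div hZ.1 hp hP)
  refine hle.trans ?_
  have h2 : P.ord (aeval Z Q') = 0 := (hP Q' hQ'0).2.2 (hQ' p hp hpv)
  have hZr : aeval Z r0 ≠ 0 := adic_ne hZ.1 hr00
  have hZq : aeval Z Q' ≠ 0 := adic_ne hZ.1 hQ'0
  have h3 : P.Reg (aeval Z Q * g⁻¹) := by
    rw [hQ, ← Finset.mul_prod_erase T0 (fun s => q s⁻¹) hg, map_mul, mul_comm (aeval _ (q g⁻¹)),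
      mul_assoc]
    exact P.reg_mul (adic_reg hP _) (reg_of_int (adic_reg hP) (hqi g⁻¹))
  have h4 := h3.resolve_left (mul_ne_zero (adic_ne hZ.1 hQ0) (inv_ne_zero hg0))
  rw [hQr, map_mul, mul_assoc, P.ord_mul hZr (mul_ne_zero hZq (inv_ne_zero hg0)),
    P.ord_mul hZq (inv_ne_zero hg0), P.ord_inv, h2] at h4
  have h5 : P.ord g ≤ P.ord (aeval Z r0) := by linarith
  exact_mod_cast h5

/-- **The upper bound.** The sections of `m K + A` grow at most like `m ^ a`, if the constant vector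
fields `U` along the fibres of the `t 1, ..., t a` are regular on a projective model. -/
theorem num_coreP {a r N : ℕ} (hpos : 0 < a + r) (htr : Algebra.trdeg k L = (a + r : ℕ))
    (hfin : ∀ y : Fin (a + r) → L, IsTranscendenceBasis k y →
      FiniteDimensional (IntermediateField.adjoin k (Set.range y)) L)
    {t : Fin a → L} (ht : AlgebraicIndependent k t) {z : Fin (N + 1) → L} (hz0 : ∀ i, z i ≠ 0)
    (htop : ∀ i, IntermediateField.adjoin k (Set.range fun j => z j / z i) = ⊤)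
    {U : Fin r → Derivation k L L} (hUt : ∀ i j, U i (t j) = 0)
    (hUB : ∀ l i j, U l (z j / z i) ∈ Algebra.adjoin k (Set.range fun j => z j / z i))
    (hUspan : ∀ D : Derivation k L L, (∀ j, D (t j) = 0) → ∃ c : Fin r → L, D = ∑ i, c i • U i)
    {δ : Place k L → ℝ} (hδ : HorBd t U δ) {T0 : Finset L}
    (hT0 : ∀ P : Place k L, IsDivisorial P (a + r) → ∃ g ∈ T0, g ≠ 0 ∧ δ P ≤ (P.ord g : ℝ)) :
    Y174.PairNum k L (a + r) δ a := by
  classical
  intro S
  obtain ⟨x, hch⟩ := exists_chart htr ht (Set.finite_range fun j => z j / z 0) (htop 0)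
  have hZ := hch.bas
  have hfd := hfin _ hZ
  obtain ⟨E, hE⟩ := exists_duals hZ
  obtain ⟨F, hFdef⟩ : ∃ F : Fin a → Derivation k L L, F = fun j => E (Fin.castAdd r j) := ⟨_, rfl⟩
  have hF : ∀ j l, F j (t l) = if j = l then 1 else 0 := by
    intro j l
    have h1 := hE (Fin.castAdd r j) (Fin.castAdd r l)
    rw [Fin.append_left] at h1
    rw [hFdef]
    simp only []
    rw [h1]
    by_cases hjl : j = l
    · rw [if_pos hjl, if_pos (by rw [hjl])]
    · rw [if_neg hjl, if_neg (fun h => hjl (Fin.castAdd_injective a r h))]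
  obtain ⟨Φ, hΦdef⟩ : ∃ Φ : Fin (a + r) → Derivation k L L, Φ = Fin.append F U := ⟨_, rfl⟩
  have hΦ : ∀ D : Derivation k L L, ∃ c : Fin (a + r) → L, D = ∑ i, c i • Φ i := by
    intro D
    obtain ⟨c, hc⟩ := hUspan (D - ∑ j, D (t j) • F j) (fun l => by
      rw [Derivation.sub_apply, Pool.Agent.W721.PG.EFF2.der_sum, Finset.sum_eq_single l]
      · rw [hF, if_pos rfl, mul_one, sub_self]
      · intro b _ hb
        rw [hF, if_neg hb, mul_zero]
      · intro hj
        exact absurd (Finset.mem_univ _) hj)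
    refine ⟨Fin.append (fun j => D (t j)) c, ?_⟩
    rw [Fin.sum_univ_add, hΦdef]
    simp only [Fin.append_left, Fin.append_right]
    rw [← hc]
    abel
  obtain ⟨r0, hr0, hr0v, hrho⟩ := exists_rho hZ hfd Φ
  obtain ⟨r1, hr1, hr1v, hrho1⟩ := exists_bd hZ hT0
  obtain ⟨ρ, hρ⟩ : ∃ ρ, ρ = aeval (Fin.append t x) r0 := ⟨_, rfl⟩
  obtain ⟨ρ1, hρ1⟩ : ∃ ρ1, ρ1 = aeval (Fin.append t x) r1 := ⟨_, rfl⟩
  have hρ10 : ρ1 ≠ 0 := by
    rw [hρ1]
    exact adic_ne hZ.1 hr1
  have hρ0 : ρ ≠ 0 := by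
    rw [hρ]
    exact adic_ne hZ.1 hr0
  obtain ⟨T, hTfin, hTdeg, C, c, hcount⟩ := count_L hpos hZ hfd S
  -- the places over the degree in a variable of the base
  have hlin : ∀ P : Place k L, IsDivisorial P (a + r) → ∃ C : ℕ, ∀ (m : ℕ)
      (ω : (Fin (a + r) → Derivation k L L) → L), 1 ≤ m →
      Y174.PairSec k L (a + r) δ S m 1 ω →
        Ge P (-((C * m : ℕ) : ℤ)) ((ρ ^ (a + r) * ρ1) ^ m * ω Φ) :=
    fun P hP => lin_boundP htr hfin hP Φ S (ρ ^ (a + r) * ρ1) δ
  have hdiv : ∀ b, ∀ P ∈ T b, IsDivisorial P (a + r) := by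
    intro b P hP
    obtain ⟨e, he, hPe⟩ := hTdeg b P hP
    refine div_of_deg hZ.1 (b := b) fun f hf hf0 => ?_
    rw [hPe f hf, hf0]
    simp
  have hbound : ∀ b, ∀ P : Place k L, ∃ C1 : ℕ, P ∈ T b → ∀ (m : ℕ)
      (ω : (Fin (a + r) → Derivation k L L) → L), 1 ≤ m →
      Y174.PairSec k L (a + r) δ S m 1 ω →
        Ge P (-(((Fin.append (fun _ : Fin a => C1 * m) (fun _ : Fin r => C1) b : ℕ)) : ℤ))
          ((ρ ^ (a + r) * ρ1) ^ m * ω Φ) := by
    intro b P
    by_cases hP : P ∈ T b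
    · revert hP
      refine Fin.addCases (fun j => ?_) (fun l => ?_) b
      · intro hP
        obtain ⟨C1, hC1⟩ := hlin P (hdiv _ P hP)
        refine ⟨C1, fun _ m ω hm hω => ?_⟩
        rw [Fin.append_left]
        exact hC1 m ω hm hω
      · intro hP
        obtain ⟨e, he, hPe⟩ := hTdeg _ P hP
        have hq : ∀ q : MvPolynomial (Fin a) k, q ≠ 0 → P.ord (aeval t q) = 0 := by
          intro q hq
          have h0 : rename (Fin.castAdd r) q ≠ 0 :=
            (map_ne_zero_iff _ (rename_injective _ (Fin.castAdd_injective a r))).2 hq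
          rw [← aeval_append_vert t x q, hPe _ h0, degreeOf_vert ⟨q, rfl⟩]
          simp
        obtain ⟨c1, hc1⟩ := x_infP htr hfin ht hz0 htop hUt hUB hUspan hF hδ S P hq
        refine ⟨c1, fun _ m ω hm hω => ?_⟩
        rw [Fin.append_right]
        have h1 := hc1 m ω hω
        rw [← hΦdef] at h1
        have h2 : Ge P 0 ((ρ ^ (a + r) * ρ1) ^ m) := by
          right
          rw [P.ord_pow, P.ord_mul (pow_ne_zero _ hρ0) hρ10, P.ord_pow, hρ, hρ1, hPe _ hr0,
            degreeOf_vert hr0v, hPe _ hr1, degreeOf_vert hr1v]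
          simp
        have h3 := h2.mul h1
        rwa [zero_add] at h3
    · exact ⟨0, fun h => absurd h hP⟩
  choose C1 hC1 using hbound
  obtain ⟨K, hK⟩ : ∃ K : ℕ, K = ∑ b, ∑ P ∈ (hTfin b).toFinset, C1 b P := ⟨_, rfl⟩
  have hKle : ∀ b, ∀ P ∈ T b, C1 b P ≤ K := by
    intro b P hP
    have h1 : C1 b P ≤ ∑ P ∈ (hTfin b).toFinset, C1 b P :=
      Finset.single_le_sum (f := fun P => C1 b P) (fun _ _ => Nat.zero_le _)
        ((hTfin b).mem_toFinset.2 hP)
    have h2 : ∑ P ∈ (hTfin b).toFinset, C1 b P ≤ ∑ b, ∑ P ∈ (hTfin b).toFinset, C1 b P :=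
      Finset.single_le_sum (f := fun b => ∑ P ∈ (hTfin b).toFinset, C1 b P)
        (fun _ _ => Nat.zero_le _) (Finset.mem_univ b)
    omega
  refine ⟨C * (K + c) ^ (a + r), fun m M hm hind => ?_⟩
  obtain ⟨ω, hωlin, hω⟩ := hind
  have hρn : (ρ ^ (a + r) * ρ1) ^ m ≠ 0 := pow_ne_zero _ (mul_ne_zero (pow_ne_zero _ hρ0) hρ10)
  have h1 := hcount (Fin.append (fun _ : Fin a => K * m) (fun _ : Fin r => K)) M
    (fun l => (ρ ^ (a + r) * ρ1) ^ m * ω l Φ) (lin_frame hΦ hωlin (fun l => (hω l).1) hρn) ?_ ?_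
  · refine h1.trans ?_
    rw [Fin.prod_univ_add]
    simp only [Fin.append_left, Fin.append_right, Finset.prod_const, Finset.card_univ,
      Fintype.card_fin]
    have h2 : K * m + c ≤ (K + c) * m := by nlinarith
    calc C * ((K * m + c) ^ a * (K + c) ^ r) ≤ C * (((K + c) * m) ^ a * (K + c) ^ r) := by
          gcongr
      _ = C * (K + c) ^ (a + r) * m ^ a := by
          rw [mul_pow, pow_add]
          ring
  · intro l p hp P hP
    by_cases hpv : Vert p
    · have h2 := (hω l).2 P (adic_div hZ.1 hp hP) (fun b => ρ • Φ b)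
        (fun b => by
          rw [hρ]
          exact hrho p hp hpv P hP b)
      rw [phi_smul (hω l).1] at h2
      rcases h2 with h2 | ⟨s, hs, hs0, h2⟩
      · left
        rw [mul_pow, mul_comm ((ρ ^ (a + r)) ^ m), mul_assoc, h2, mul_zero]
      · by_cases h0 : (ρ ^ (a + r)) ^ m * ω l Φ = 0
        · left
          rw [mul_pow, mul_comm ((ρ ^ (a + r)) ^ m), mul_assoc, h0, mul_zero]
        refine Or.inr ⟨s, hs, hs0, ?_⟩
        have h3 : (ρ ^ (a + r) * ρ1) ^ m * ω l Φ = ρ1 ^ m * ((ρ ^ (a + r)) ^ m * ω l Φ) := by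
          rw [mul_pow]
          ring
        rw [h3, P.ord_mul (pow_ne_zero _ hρ10) h0, P.ord_pow]
        have h4 := hrho1 p hp hpv P hP
        rw [← hρ1] at h4
        have h5 : (m : ℝ) * δ P ≤ m * P.ord ρ1 :=
          mul_le_mul_of_nonneg_left h4 (Nat.cast_nonneg m)
        have h6 : ((1 : ℕ) : ℝ) * (P.ord s : ℝ) ≤
            m * (P.ord ρ1 : ℝ) + (P.ord ((ρ ^ (a + r)) ^ m * ω l Φ) : ℝ) := by linarith
        exact_mod_cast h6
    · have h2 := dom_horP htr hfin hch (htop 0) hUt (fun l b hb => by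
        obtain ⟨j, rfl⟩ := hb
        exact hUB l 0 j) hUspan hF hδ (hω l) hp hpv hP
      rw [← hΦdef] at h2
      rcases h2 with h2 | ⟨s, hs, hs0, h2⟩
      · left
        rw [h2, mul_zero]
      · by_cases h0 : ω l Φ = 0
        · left
          rw [h0, mul_zero]
        right
        refine ⟨s, hs, hs0, ?_⟩
        rw [P.ord_mul hρn h0, P.ord_pow, P.ord_mul (pow_ne_zero _ hρ0) hρ10, P.ord_pow]
        have h3 : 0 ≤ P.ord ρ := by
          rw [hρ]
          exact (hP r0 hr0).1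
        have h3' : 0 ≤ P.ord ρ1 := by
          rw [hρ1]
          exact (hP r1 hr1).1
        have h4 : (0 : ℤ) ≤ (m : ℤ) * (((a + r : ℕ) : ℤ) * P.ord ρ + P.ord ρ1) := by positivity
        linarith
  · intro l b P hP
    have h2 := hC1 b P hP m (ω l) hm (hω l)
    refine h2.mono ?_
    have h3 := hKle b P hP
    have h4 : Fin.append (fun _ : Fin a => C1 b P * m) (fun _ : Fin r => C1 b P) b ≤
        Fin.append (fun _ : Fin a => K * m) (fun _ : Fin r => K) b := by
      revert h3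
      generalize C1 b P = C2
      intro h3
      refine Fin.addCases (fun j => ?_) (fun j => ?_) b
      · rw [Fin.append_left, Fin.append_left]
        exact Nat.mul_le_mul_right m h3
      · rw [Fin.append_right, Fin.append_right]
        exact h3
    have h5 : ((Fin.append (fun _ : Fin a => C1 b P * m) (fun _ : Fin r => C1 b P) b : ℕ) : ℤ) ≤
        ((Fin.append (fun _ : Fin a => K * m) (fun _ : Fin r => K) b : ℕ) : ℤ) := by
      exact_mod_cast h4
    linarith

end Pool.Agent.V11168.Pair
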