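import Pool.Agent.V11168.Pair.Fib
import Pool.Agent.V11168.Pair.Up
import Pool.Agent.V11168.Rel.PairDim
import Pool.Agent.Y174.OB.O10
import Pool.Agent.Y179.OB.Easy

/-! The upper bound for the numerical dimension of a pair on the quotient of a fibre space, and the
main theorem. -/

set_option autoImplicit false
set_option linter.overlappingInstances false
set_option linter.unusedSectionVars false

open FF IntermediateField Pool.Agent.W619.PQ Pool.Agent.W619.PL Pool.Agent.W619.TW
  Pool.Agent.W603.LV Pool.Agent.W619.Y Pool.Agent.Y173.QA Pool.Agent.Y173.QM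
  Pool.Agent.V11168.Abund Pool.Agent.V11168.Rel Pool.Agent.Y174

namespace Pool.Agent.V11168.Pair

section

variable {k : Type} [Field k] [CharZero k] {L : Type} [Field L] [Algebra k L]

/-- a transcendental element has a derivation with value `1` on it -/
theorem exists_der_one {z : L} (htr : Transcendental k z) : ∃ D : Derivation k L L, D z = 1 := by
  classical
  have hs : AlgebraicIndepOn k id ({z} : Set L) := by
    let _ : Unique ({z} : Set L) := Set.uniqueSingleton z
    exact algebraicIndependent_unique_type_iff.2 htr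
  obtain ⟨B, hzB, hB⟩ := exists_isTranscendenceBasis_superset hs
  obtain ⟨E, hE⟩ := exists_duals hB
  have h1 := hE ⟨z, hzB rfl⟩ ⟨z, hzB rfl⟩
  rw [if_pos rfl] at h1
  exact ⟨_, h1⟩

/-- functions killed by the vector fields along the fibres of `t` are constant on the fibres -/
theorem alg_of_killed {a r : ℕ} {t : Fin a → L} {U : Fin r → Derivation k L L}
    (hUspan : ∀ D : Derivation k L L, (∀ j, D (t j) = 0) → ∃ c : Fin r → L, D = ∑ i, c i • U i)
    {x : L} (hx : ∀ i, U i x = 0) :
    IsAlgebraic (IntermediateField.adjoin k (Set.range t)) x := by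
  by_contra hcon
  obtain ⟨D, hD⟩ := exists_der_one (k := IntermediateField.adjoin k (Set.range t)) (L := L) hcon
  obtain ⟨c, hc⟩ := hUspan (D.restrictScalars k) (fun j => by
    have h1 := D.map_algebraMap (⟨t j, IntermediateField.subset_adjoin k _ ⟨j, rfl⟩⟩ :
      IntermediateField.adjoin k (Set.range t))
    exact h1)
  have h2 : (D.restrictScalars k) x = 1 := hD
  rw [hc, Pool.Agent.W721.PG.EFF2.der_sum] at h2
  simp only [hx, mul_zero, Finset.sum_const_zero] at h2
  exact zero_ne_one h2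

theorem ord_killed {a r : ℕ} {t : Fin a → L} {U : Fin r → Derivation k L L}
    (hUspan : ∀ D : Derivation k L L, (∀ j, D (t j) = 0) → ∃ c : Fin r → L, D = ∑ i, c i • U i)
    {P : Place k L} (hq : ∀ q : MvPolynomial (Fin a) k, q ≠ 0 → P.ord (MvPolynomial.aeval t q) = 0)
    {x : L} (hx0 : x ≠ 0) (hx : ∀ i, U i x = 0) : P.ord x = 0 := by
  have h1 := alg_of_killed hUspan hx
  have h2 : ∀ y : L, y ≠ 0 → IsAlgebraic (IntermediateField.adjoin k (Set.range t)) y →
      0 ≤ P.ord y := fun y hy0 hy =>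
    (P.reg_of_isIntegral (A := IntermediateField.adjoin k (Set.range t))
      (fun c => Or.inr (ord_base hq c.2).ge) hy.isIntegral).resolve_left hy0
  have h3 := h2 x hx0 h1
  have h4 := h2 x⁻¹ (inv_ne_zero hx0) h1.inv
  rw [P.ord_inv] at h4
  omega

end

variable {k : Type} [Field k] [CharZero k] {L : Type} [Field L] [Algebra k L]
  {M : IntermediateField k L}

/-- The condition on the boundary along the divisors over `X` which dominate the base of the
fibration whose general fibres are the closures of the leaves of the constant vector fields `W` on the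
fibres: the multiplicity is at most `1 - 1 / e`, where `e` is the ramification index, or it is at most
`1` and the vector fields in `W` are tangent to the divisor. -/
def TangentBd (n : ℕ) (G : Subgroup (L ≃ₐ[k] L)) (M : IntermediateField k L)
    (W : Submodule M (Derivation M L L)) (δ : Place k (fixedField G) → ℝ) : Prop :=
  ∀ (v : Place k (fixedField G)) (w : Place k L) (e : ℕ), IsDivisorial w n → LiesOn w v e →
    (∀ x : L, x ≠ 0 → (∀ D ∈ W, D x = 0) → w.ord x = 0) →
    δ v ≤ 1 - 1 / e ∨ (δ v ≤ 1 ∧ ∀ D ∈ W, ∀ z, w.Reg (D z / z))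

/-- **The upper bound.** -/
theorem upper_main [hess : Algebra.EssFiniteType k L]
    [hessM : Algebra.EssFiniteType k M] (hMcl : ∀ x : L, IsAlgebraic M x → x ∈ M) {d r : ℕ}
    (hM : Algebra.trdeg k M = d) (hn : Algebra.trdeg k L = (d + (r + 1) : ℕ))
    (G : Subgroup (L ≃ₐ[k] L)) [Finite G]
    {δ : Place k (fixedField G) → ℝ} (hδ0 : ∀ v, 0 ≤ δ v) {T : Finset (fixedField G)}
    (hT : ∀ v : Place k (fixedField G), IsDivisorial v (d + (r + 1)) →
      ∃ g ∈ T, g ≠ 0 ∧ δ v ≤ (v.ord g : ℝ))
    {W : Submodule M (Derivation M L L)} (hW : IsRegularOnModel W)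
    {a s : ℕ} {t : Fin a → L} {U : Fin s → Derivation M L L} (has : a + s = r + 1)
    (ht : AlgebraicIndependent M t) (hU : ∀ i, U i ∈ W) (hUt : ∀ i j, U i (t j) = 0)
    (hUspan : ∀ D : Derivation M L L, (∀ j, D (t j) = 0) →
      ∃ c : Fin s → L, D = ∑ i, c i • U i)
    (hhor : TangentBd (d + (r + 1)) G M W δ) :
    PairNum k (fixedField G) (d + (r + 1)) δ (d + a) := by
  classical
  have hfd : FiniteDimensional (fixedField G) L := fd_fixed G
  obtain ⟨t0, ht0⟩ := Pool.Agent.W636.PG.exists_basis k M d hM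
  obtain ⟨δ', hδ'⟩ := exists_pull (K := fixedField G) (L := L) δ
  have h1 := Pool.Agent.Y174.trdeg_LK (L := M) hM hn
  have hnK : Algebra.trdeg k (fixedField G) = (d + (r + 1) : ℕ) := trdeg_fixed G hn
  obtain ⟨zK, hzK⟩ := Pool.Agent.W636.PG.exists_basis k (fixedField G) _ hnK
  have hessK : Algebra.EssFiniteType k (fixedField G) :=
    Pool.Agent.Y174.ess_down (L := L) hess zK hzK
  -- the boundary on the cover is bounded
  have hbd : ∀ w : Place k L, IsDivisorial w (d + (r + 1)) →
      ∃ g ∈ T.image (algebraMap (fixedField G) L), g ≠ 0 ∧ δ' w ≤ (w.ord g : ℝ) := by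
    intro w hw
    obtain ⟨e, v, hwv⟩ := Pool.Agent.W73.PG.PULL.exists_over' (K := fixedField G) w
    have hv := Pool.Agent.Y174.pDIVI k (fixedField G) L (d + (r + 1)) v w e hwv hw
    obtain ⟨g, hg, hg0, hle⟩ := hT v hv
    refine ⟨algebraMap _ L g, Finset.mem_image_of_mem _ hg, by simpa using hg0, ?_⟩
    rw [hδ' v w e hwv, hwv.2]
    have he : (1 : ℝ) ≤ e := by exact_mod_cast hwv.1
    have h2 := hδ0 v
    push_cast
    refine max_le ?_ ?_
    · exact mul_nonneg (by linarith) (h2.trans hle)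
    · nlinarith
  -- the boundary on the generic fibre
  obtain ⟨δF, hδF⟩ : ∃ δF : Place M L → ℝ, δF = fun P => δ' (Pool.Agent.Y174.resPl k P) :=
    ⟨_, rfl⟩
  have hδ'0 : ∀ w : Place k L, 0 ≤ δ' w := by
    intro w
    obtain ⟨e, v, hwv⟩ := Pool.Agent.W73.PG.PULL.exists_over' (K := fixedField G) w
    rw [hδ' v w e hwv]
    exact le_max_left _ _
  have hdivF : ∀ P : Place M L, IsDivisorial P (r + 1) →
      IsDivisorial (Pool.Agent.Y174.resPl k P) (d + (r + 1)) := fun P hP =>
    (Pool.Agent.Y174.exists_frame_fib hess hn ht0.1 hP).1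
  have hHor : HorBd (k := M) t U δF := by
    intro P hP hq
    rw [has] at hP
    have hw := hdivF P hP
    obtain ⟨e, v, hwv⟩ := Pool.Agent.W73.PG.PULL.exists_over' (K := fixedField G)
      (Pool.Agent.Y174.resPl k P)
    have he : (1 : ℝ) ≤ e := by exact_mod_cast hwv.1
    have hval : δF P = max 0 (1 - e * (1 - δ v)) := by
      rw [hδF]
      exact hδ' v _ e hwv
    rcases hhor v (Pool.Agent.Y174.resPl k P) e hw hwv (fun x hx0 hx =>
      ord_killed (k := M) hUspan hq hx0 fun i => hx _ (hU i)) with h2 | ⟨h2, h3⟩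
    · left
      rw [hval]
      have h3 : (1 : ℝ) ≤ e * (1 - δ v) := by
        have h4 : (1 : ℝ) / e ≤ 1 - δ v := by linarith
        have h5 : (e : ℝ) * (1 / e) ≤ e * (1 - δ v) := mul_le_mul_of_nonneg_left h4 (by linarith)
        rwa [mul_one_div_cancel (by linarith)] at h5
      exact max_le le_rfl (by linarith)
    · right
      refine ⟨?_, fun i z => h3 (U i) (hU i) z⟩
      rw [hval]
      refine max_le zero_le_one ?_
      have h4 : (0 : ℝ) ≤ e * (1 - δ v) := mul_nonneg (by linarith) (by linarith)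
      linarith
  obtain ⟨N, z, hz0, htop, hUB⟩ := hW
  have h2 : PairNum M L (a + s) δF a := by
    rw [← has] at h1
    refine num_coreP (k := M) (by omega) h1 (fun y hy => fin_fib hess y hy) ht hz0 htop hUt
      (fun l i j => hUB _ (hU l) i j) hUspan hHor
      (T0 := T.image (algebraMap (fixedField G) L)) (fun P hP => ?_)
    rw [has] at hP
    obtain ⟨g, hg, hg0, hle⟩ := hbd _ (hdivF P hP)
    refine ⟨g, hg, hg0, ?_⟩
    rw [hδF]
    exact hle
  rw [has] at h2
  have h3 : PairNum k L (d + (r + 1)) δ' (d + a) := by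
    refine Pool.Agent.Y179.OB.t_EASY k M L M L hessM hess ?_ ?_ d r hM hn a δ' δF ?_
      (T.image (algebraMap (fixedField G) L)) hbd h2
    · rw [eq_top_iff]
      intro x _
      exact IntermediateField.subset_adjoin M _ ⟨x, rfl⟩
    · intro x hx
      exact ⟨⟨x, hMcl x hx.isAlgebraic⟩, rfl⟩
    · intro v w e h
      obtain ⟨f, hf0, hf⟩ := w.surj
      have he1 : e = 1 := by
        have h4 := h.2 f
        have h5 : w.ord f = e * v.ord f := h4
        rw [hf] at h5
        have h6 : (e : ℤ) ∣ 1 := ⟨_, h5⟩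
        have h7 := Int.eq_one_of_dvd_one (by positivity) h6
        exact_mod_cast h7
      have hvw : Pool.Agent.Y174.resPl k w = v := by
        have h4 : LiesOn (Pool.Agent.Y174.resPl k w) v e := h
        have h5 : LiesOn (Pool.Agent.Y174.resPl k w) (Pool.Agent.Y174.resPl k w) 1 :=
          ⟨one_pos, fun f => by simp⟩
        exact (liesOn_unique h5 h4).1
      rw [hδF]
      change δ' (Pool.Agent.Y174.resPl k w) = _
      rw [hvw, he1]
      have h4 := hδ'0 v
      push_cast
      rw [one_mul, sub_sub_cancel, max_eq_right h4]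
  exact pair_num hessK hnK hδ' h3

/-- **The main theorem.** -/
theorem pair_main [IsAlgClosed k] [hess : Algebra.EssFiniteType k L]
    [hessM : Algebra.EssFiniteType k M] (hMcl : ∀ x : L, IsAlgebraic M x → x ∈ M) {d r : ℕ}
    (hM : Algebra.trdeg k M = d) (hn : Algebra.trdeg k L = (d + (r + 1) : ℕ))
    (G : Subgroup (L ≃ₐ[k] L)) [Finite G]
    {Bd : Place k (fixedField G) → Prop} {δ : Place k (fixedField G) → ℝ} (hδ0 : ∀ v, 0 ≤ δ v)
    (hδ1 : ∀ v, Bd v → 1 ≤ δ v) {T : Finset (fixedField G)}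
    (hT : ∀ v : Place k (fixedField G), IsDivisorial v (d + (r + 1)) →
      ∃ g ∈ T, g ≠ 0 ∧ δ v ≤ (v.ord g : ℝ))
    {V : Submodule k (Derivation k L L →ₗ[L] L)}
    (hlogf : ∀ θ ∈ V, IsLogForm (d + (r + 1)) (BdOn Bd) θ)
    (hcl : ∀ θ ∈ V, IsClosedForm θ)
    (hstab : ∀ g ∈ G, ∀ θ ∈ V, ∃ θ' ∈ V, IsImage g θ θ')
    {δB : Place k M → ℝ} (hB1 : ∀ u, δB u ≤ 1) (hB2 : BaseBound (d + (r + 1)) G M Bd δ δB)
    (hRT : ReidTaiPair d (r + 1) G M V Bd δ δB)
    {θ : Fin (r + 1) → Derivation k L L →ₗ[L] L} (hθ : ∀ i, θ i ∈ V)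
    (hind : IndepOver (m := d) M θ) :
    ∃ a : ℕ, a + Module.finrank M (constFields (fibreForms M V)) = r + 1 ∧
      (∀ h, PairKod k M d δB h → PairKod k (fixedField G) (d + (r + 1)) δ (h + a)) ∧
      (IsRegularOnModel (constFields (fibreForms M V)) →
        TangentBd (d + (r + 1)) G M (constFields (fibreForms M V)) δ →
        PairNum k (fixedField G) (d + (r + 1)) δ (d + a)) := by
  obtain ⟨a, s, t, U, has, hrank, ht, hU, hUt, hUspan, hlow⟩ :=
    lower_main hMcl hM hn G hδ0 hδ1 hlogf hcl hstab hB1 hB2 hRT hθ hind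
  exact ⟨a, by rw [hrank]; exact has, hlow, fun hmod htan =>
    upper_main hMcl hM hn G hδ0 hT hmod has ht hU hUt hUspan htan⟩

end Pool.Agent.V11168.Pair
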