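import Pool.Agent.V11168.Pair.Point

/-! The Campana-Peternell inequality for pairs from the equality of the Kodaira and numerical
dimensions. -/

set_option autoImplicit false
set_option linter.overlappingInstances false
set_option linter.unusedSectionVars false

open FF IntermediateField Pool.Agent.W619.PQ Pool.Agent.W619.PL Pool.Agent.W619.TW
  Pool.Agent.Y174 Pool.Agent.V11168.Rel

namespace Pool.Agent.V11168.Pair

section

variable (k K : Type) [Field k] [Field K] [Algebra k K]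

/-- `κ (A) ≥ h` for the divisor `A` with the multiplicity `α v` along each divisor `v`: there is
`m ≥ 1` with `h⁰ (⌊j m A⌋) ≥ j ^ h` for all `j ≥ 1`. -/
def DivKod (n : ℕ) (α : Place k K → ℝ) (h : ℕ) : Prop :=
  ∃ m : ℕ, 1 ≤ m ∧ ∀ j : ℕ, 1 ≤ j → ∃ f : Fin (j ^ h) → K, LinearIndependent k f ∧
    ∀ l, ∀ v : Place k K, IsDivisorial v n → -((j : ℝ) * m * α v) ≤ (v.ord (f l) : ℝ)

/-- `r (K_X + Δ) - A` is pseudo-effective, where `Δ` and `A` have the multiplicities `δ v` and `α v`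
along `v`: there is a divisor `H` (generated by a finite set `S` of functions) such that for all
`j ≥ 1` the divisor `j (r (K_X + Δ) - A) + H` has a nonzero section: a `j r`-fold pluricanonical form
whose values on the vector fields which are regular along `v` are zero or of order at least
`j α v + v (s) - j r δ v`, for some `s ∈ S`. -/
def PairPsef (n : ℕ) (δ : Place k K → ℝ) (r : ℕ) (α : Place k K → ℝ) : Prop :=
  ∃ S : Finset K, ∀ j : ℕ, 1 ≤ j → ∃ β : (Fin n → Derivation k K K) → K,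
    IsPluriForm k K n (j * r) β ∧ (∃ D, β D ≠ 0) ∧
    ∀ v : Place k K, IsDivisorial v n → ∀ D : Fin n → Derivation k K K,
      (∀ l, ∀ f, v.Reg f → v.Reg (D l f)) →
        β D = 0 ∨ ∃ s ∈ S, s ≠ 0 ∧
          (j : ℝ) * α v + v.ord s - (j : ℝ) * r * δ v ≤ (v.ord (β D) : ℝ)

end

variable {k K : Type} [Field k] [Field K] [Algebra k K]

theorem cp_secP {n : ℕ} {δ : Place k K → ℝ} {r : ℕ} {α : Place k K → ℝ} {h : ℕ}
    (hps : PairPsef k K n δ r α) (hA : DivKod k K n α h) :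
    ∃ (S : Finset K) (m : ℕ), 1 ≤ m ∧ ∀ j : ℕ, 1 ≤ j →
      HasIndep k K n (j ^ h) (PairSec k K n δ S (j * m * r) 1) := by
  obtain ⟨S, hS⟩ := hps
  obtain ⟨m, hm, hf⟩ := hA
  refine ⟨S, m, hm, fun j hj => ?_⟩
  obtain ⟨f, hfli, hfa⟩ := hf j hj
  obtain ⟨β, h1, ⟨D0, hD0⟩, h2⟩ := hS (j * m) (Nat.one_le_iff_ne_zero.2
    (mul_ne_zero (by omega) (by omega)))
  have hf0 : ∀ l, f l ≠ 0 := fun l => hfli.ne_zero l
  refine ⟨fun l D => f l * β D, ?_, fun l => ⟨?_, ?_⟩⟩
  · refine LinearIndependent.of_comp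
      (LinearMap.proj D0 : ((Fin n → Derivation k K K) → K) →ₗ[k] K) ?_
    have h4 := hfli.map' (LinearMap.mulRight k (β D0))
      (LinearMap.ker_eq_bot.2 (mul_left_injective₀ hD0))
    exact h4
  · intro A D
    change f l * β _ = _
    rw [h1 A D]
    ring
  · intro v hv D hD
    change f l * β D = 0 ∨ ∃ s ∈ S, s ≠ 0 ∧
      ((1 : ℕ) : ℝ) * (v.ord s : ℝ) - ((j * m * r : ℕ) : ℝ) * δ v ≤ (v.ord (f l * β D) : ℝ)
    rcases h2 v hv D hD with h4 | ⟨s, hs, hs0, h4⟩
    · left; rw [h4, mul_zero]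
    · by_cases hb : β D = 0
      · left; rw [hb, mul_zero]
      right
      refine ⟨s, hs, hs0, ?_⟩
      rw [v.ord_mul (hf0 l) hb]
      have h5 := hfa l v hv
      push_cast at h4 h5 ⊢
      linarith

theorem cp_pair {n : ℕ} {δ : Place k K → ℝ} {h0 : ℕ} (hk : PairKod k K n δ h0)
    (hnum : PairNum k K n δ h0) {r : ℕ} (hr : 1 ≤ r)
    {α : Place k K → ℝ} {h : ℕ} (hps : PairPsef k K n δ r α) (hA : DivKod k K n α h) :
    PairKod k K n δ h := by
  rcases le_or_gt h h0 with hle | hlt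
  · exact pairKod_mono hle hk
  exfalso
  obtain ⟨S, m, hm, hS⟩ := cp_secP hps hA
  obtain ⟨C, hC⟩ := hnum S
  set M := C * (m * r) ^ h0 with hM
  have h1 : ∀ j : ℕ, 1 ≤ j → 1 ≤ j * m * r → j ≤ M := by
    intro j hj hj'
    have h2 := hC (j * m * r) _ hj' (hS j hj)
    have h3 : j ^ (h0 + 1) ≤ j ^ h := Nat.pow_le_pow_right hj hlt
    have h4 : j ^ h0 * j ≤ j ^ h0 * M := by
      calc j ^ h0 * j = j ^ (h0 + 1) := (pow_succ _ _).symm
        _ ≤ C * (j * m * r) ^ h0 := h3.trans h2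
        _ = j ^ h0 * M := by rw [hM, mul_assoc j m r, mul_pow]; ring
    exact Nat.le_of_mul_le_mul_left h4 (Nat.pow_pos hj)
  have h2 := h1 (M + 1) (by omega) (Nat.one_le_iff_ne_zero.2
    (mul_ne_zero (mul_ne_zero (by omega) (by omega)) (by omega)))
  omega

end Pool.Agent.V11168.Pair
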