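import Pool.Agent.V11168.Rel.Defs
import Pool.Agent.Y174.LDefs

/-! Logarithmic 1-forms and the weighted condition of Reid-Tai type for pairs. -/

set_option autoImplicit false
set_option linter.overlappingInstances false
set_option linter.unusedSectionVars false

universe u v

open FF IntermediateField Pool.Agent.W619.PQ Pool.Agent.Y173.QA Pool.Agent.Y173.QM
  Pool.Agent.Y174

namespace Pool.Agent.V11168.Pair

section

variable {k : Type v} {L : Type u} [Field k] [Field L] [Algebra k L]

/-- The rational `1`-form `θ` is regular except for logarithmic poles along the prime divisors `w`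
with `Bd w`: along each prime divisor over the variety it takes the local sections of the logarithmic
tangent sheaf to regular functions. -/
def IsLogForm (n : ℕ) (Bd : Place k L → Prop) (θ : Derivation k L L →ₗ[L] L) : Prop :=
  ∀ w : Place k L, IsDivisorial w n → ∀ D : Derivation k L L, LogFld Bd w D → w.Reg (θ D)

/-- `c` is the multiplicity along the divisor `w` of the pull-back of a prime divisor `u` of the base
with function field `M`, and `β = δB u` is the multiplicity of `u` in `Δ_B`; or `w` dominates the base,
and `c = 0`. -/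
def BaseMult (M : IntermediateField k L) (δB : Place k M → ℝ) (w : Place k L) (c : ℕ)
    (β : ℝ) : Prop :=
  (∃ u : Place k M, LiesOn w u c ∧ β = δB u) ∨ (c = 0 ∧ ∀ x ∈ M, x ≠ 0 → w.ord x = 0)

/-- The weighted condition of Reid-Tai type for the pair `(X, Δ)` over `(B, Δ_B)`, where `X` is the
quotient by `G`, `Δ` has the multiplicity `δ v` along the prime divisor `v` over `X`, and `Δ_B` has the
multiplicity `δB u` along the prime divisor `u` over `B`: let `w` be a prime divisor over `Z` with
ramification index `e ≥ 2` over the prime divisor `v` with `¬ Bd v`, let `g` in `G`, of order `e`, fix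
`w` pointwise, and let `θ 1, ..., θ f` in `V`, independent relative to `M`, be eigenvectors of `g` with
the eigenvalues `ζ ^ a 1, ..., ζ ^ a f`, `0 ≤ a i < e`, where `ζ` is a primitive `e`-th root of unity;
then `c (1 - β) + ∑ a i ≥ e (1 - δ v)`, where `c = 0` if `w` dominates `B`, and otherwise `c` is the
multiplicity along `w` of the pull-back of its image `u` in `B`, and `β = δB u`. -/
def ReidTaiPair (m f : ℕ) (G : Subgroup (L ≃ₐ[k] L)) (M : IntermediateField k L)
    (V : Submodule k (Derivation k L L →ₗ[L] L)) (Bd : Place k (fixedField G) → Prop)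
    (δ : Place k (fixedField G) → ℝ) (δB : Place k M → ℝ) : Prop :=
  ∀ g ∈ G, g ≠ 1 → ∀ (v : Place k (fixedField G)) (w : Place k L), ¬ Bd v →
    IsDivisorial w (m + f) → LiesOn w v (orderOf g) →
    (∀ z, w.Reg z → g z - z = 0 ∨ 1 ≤ w.ord (g z - z)) →
    ∀ ζ : k, IsPrimitiveRoot ζ (orderOf g) →
    ∀ (θ : Fin f → Derivation k L L →ₗ[L] L) (a : Fin f → ℕ),
      (∀ i, θ i ∈ V ∧ a i < orderOf g ∧ IsImage g (θ i) (ζ ^ a i • θ i)) →
      IndepOver (m := m) M θ → ∀ (c : ℕ) (β : ℝ), BaseMult M δB w c β →
        (orderOf g : ℝ) * (1 - δ v) ≤ c * (1 - β) + ∑ i, (a i : ℝ)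

/-- The comparison of `Δ_B` and `Δ` along the prime divisors `w` which are not ramified over `X` and
not in the boundary given by `Bd`: if `c` is the multiplicity along `w` of the pull-back of its image
`u` in `B`, then `1 - δ v ≤ c (1 - δB u)`. -/
def BaseBound (n : ℕ) (G : Subgroup (L ≃ₐ[k] L)) (M : IntermediateField k L)
    (Bd : Place k (fixedField G) → Prop) (δ : Place k (fixedField G) → ℝ)
    (δB : Place k M → ℝ) : Prop :=
  ∀ (v : Place k (fixedField G)) (w : Place k L) (u : Place k M) (c : ℕ), ¬ Bd v →
    IsDivisorial w n → LiesOn w v 1 → LiesOn w u c → 1 - δ v ≤ c * (1 - δB u)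

end

end Pool.Agent.V11168.Pair
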