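import Pool.Agent.Y173.QA.Desc
import Pool.Agent.Y174.B4

/-! Descent of sections of pairs from a Galois cover by symmetric functions. -/

set_option autoImplicit false
set_option linter.overlappingInstances false
set_option linter.unusedSectionVars false

universe u v

open FF IntermediateField Pool.Agent.W619.PQ Pool.Agent.W619.PL Pool.Agent.W619.TW
  Pool.Agent.W603.LV Pool.Agent.W619.Y Pool.Agent.W672.PG Pool.Agent.Y173.QA Pool.Agent.Y174

namespace Pool.Agent.V11168.Pair

section

variable {k : Type v} {L : Type u} [Field k] [CharZero k] [Field L] [Algebra k L]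

open scoped Classical in
/-- **Descent of the Kodaira dimension of a pair.** -/
theorem pair_descent (G : Subgroup (L ≃ₐ[k] L)) [Finite G] {n a m : ℕ}
    (htr : Algebra.trdeg k L = n) (hm : 1 ≤ m) (δ : Place k (fixedField G) → ℝ)
    (Ω : Fin (a + 1) → (Fin n → Derivation k L L) → L) (hΩ : ∀ l, IsPluriForm k L n m (Ω l))
    (hloc : ∀ v : Place k (fixedField G), IsDivisorial v n → ∃ (w : Place k L) (e : ℕ),
      Over w v e ∧ ∀ (D : Fin n → Derivation k (fixedField G) (fixedField G))
        (D' : Fin n → Derivation k L L), (∀ j, Pres v (D j)) →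
        (∀ j (f : fixedField G), D' j (f : L) = (D j f : L)) →
        ∀ l (g : G), GeR w (-(m * (e * δ v))) ((g : L ≃ₐ[k] L) (Ω l D')))
    (D1 : Fin n → Derivation k L L) (h0 : ∀ l, Ω l D1 ≠ 0)
    (hind : AlgebraicIndependent k (fun l : Fin a => Ω l.succ D1 / Ω 0 D1)) :
    PairKod k (fixedField G) n δ a := by
  have halgK := Pool.Agent.W721.PG.EFF2.alg_fixed G
  have := Fintype.ofFinite G
  obtain ⟨hnK, z, hz⟩ := Pool.Agent.W721.PG.EFF2.exists_basis (fixedField G) n htr
  choose ext hext hext2 hext3 using Pool.Agent.Y174.pEXT k (fixedField G) L n hnK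
  choose D0 hD0 using fun j => exists_dual z hz j
  have hzL : IsTranscendenceBasis k (fun j => (z j : L)) := hz.algebraMap_comp
  have hdual : ∀ i j, ext (D0 i) (z j : L) = if i = j then 1 else 0 := by
    intro i j
    have h1 := hext (D0 i) (z j)
    change ext (D0 i) (z j : L) = _ at h1
    rw [h1, hD0 i j]
    by_cases hij : i = j
    · rw [if_pos hij, if_pos hij.symm, map_one]
    · rw [if_neg hij, if_neg (Ne.symm hij), map_zero]
  have hfix : ∀ (g : G) (f : fixedField G), (g : L ≃ₐ[k] L) (algebraMap (fixedField G) L f) =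
      algebraMap (fixedField G) L f := fun g f => f.2 g
  let V : (Fin n → Derivation k (fixedField G) (fixedField G)) → Fin (a + 1) → L :=
    fun D l => Ω l (fun j => ext (D j))
  have hV1 : ∀ l, Ω l D1 = (Matrix.of fun i j => D1 i (z j : L)).det ^ m * V D0 l := fun l =>
    pluri_zero (K := fixedField G) (hΩ l) hzL hdual D1
  have hdet1 : (Matrix.of fun i j => D1 i (z j : L)).det ^ m ≠ 0 := by
    intro h1
    apply h0 0
    rw [hV1, h1, zero_mul]
  have hV0 : ∀ l, V D0 l ≠ 0 := by
    intro l h1
    apply h0 l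
    rw [hV1, h1, mul_zero]
  have hVr : (fun l : Fin a => V D0 l.succ / V D0 0) = fun l => Ω l.succ D1 / Ω 0 D1 := by
    funext l
    rw [hV1, hV1, mul_div_mul_left _ _ hdet1]
  have hVlin : ∀ (X : Matrix (Fin n) (Fin n) (fixedField G))
      (D : Fin n → Derivation k (fixedField G) (fixedField G)) l,
      V (fun i => ∑ j, X i j • D j) l = V D l * (algebraMap (fixedField G) L X.det) ^ m := by
    intro X D l
    have e1 : ∀ j, ext (∑ l, X j l • D l) = ∑ l, (algebraMap (fixedField G) L (X j l)) •
        ext (D l) := by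
      intro j
      symm
      apply hext2
      intro f
      rw [Pool.Agent.W721.PG.EFF2.der_sum, Pool.Agent.W721.PG.EFF2.der_sum, map_sum]
      refine Finset.sum_congr rfl fun l _ => ?_
      rw [hext, map_mul]
    have e3 : (X.map (algebraMap (fixedField G) L)).det = algebraMap (fixedField G) L X.det := by
      rw [RingHom.map_det]
      rfl
    change Ω l (fun j => ext (∑ l, X j l • D l)) = _
    simp only [e1]
    have h1 := hΩ l (X.map (algebraMap (fixedField G) L)) (fun j => ext (D j))
    rw [e3] at h1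
    rw [mul_comm]
    exact h1
  -- symmetric functions
  obtain ⟨R, t, r, q, hR, hrq, hs0, hsi⟩ := Pool.Agent.W513.PG.main k L G 1 a
    (fun g l => (g : L ≃ₐ[k] L) (V D0 l)) (fun l => by
      change V D0 l ≠ 0
      exact hV0 l) (by
      have e1 : (fun l : Fin a => ((1 : G) : L ≃ₐ[k] L) (V D0 l.succ) /
          ((1 : G) : L ≃ₐ[k] L) (V D0 0)) = fun l => Ω l.succ D1 / Ω 0 D1 := by
        rw [← hVr]
        rfl
      rw [e1]
      exact hind)
  let s : (Fin n → Derivation k (fixedField G) (fixedField G)) → Fin (a + 1) → L :=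
    fun D j => esy (fun g : G => (g : L ≃ₐ[k] L) (V D (t j))) (r j) ^ q j
  have hsG : ∀ D j (g : G), (g : L ≃ₐ[k] L) (s D j) = s D j := by
    intro D j g
    change (g : L ≃ₐ[k] L) (esy (fun g : G => (g : L ≃ₐ[k] L) (V D (t j))) (r j) ^ q j) = _
    rw [map_pow]
    congr 1
    exact esy_inv _ (g : L ≃ₐ[k] L) (Equiv.mulLeft g) (fun i => rfl) _
  have hsA : ∀ (X : Matrix (Fin n) (Fin n) (fixedField G))
      (D : Fin n → Derivation k (fixedField G) (fixedField G)) j,
      s (fun i => ∑ j, X i j • D j) j = (algebraMap (fixedField G) L X.det) ^ (m * R) * s D j := by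
    intro X D j
    have e1 : (fun g : G => (g : L ≃ₐ[k] L) (V (fun i => ∑ j, X i j • D j) (t j))) =
        fun g : G => (g : L ≃ₐ[k] L) (V D (t j)) * (algebraMap (fixedField G) L X.det) ^ m := by
      funext g
      rw [hVlin, map_mul, map_pow, hfix]
    change esy (fun g : G => (g : L ≃ₐ[k] L) (V (fun i => ∑ j, X i j • D j) (t j))) (r j) ^ q j =
      (algebraMap (fixedField G) L X.det) ^ (m * R) *
        esy (fun g : G => (g : L ≃ₐ[k] L) (V D (t j))) (r j) ^ q j
    rw [e1, esy_mul, mul_pow, ← pow_mul, ← pow_mul, hrq j]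
  refine ⟨m * R, Nat.mul_pos hm hR, fun j D => ⟨s D j, fun g => hsG D j g⟩, fun l => ⟨?_, ?_⟩,
    D0, fun l h0 => ?_, ?_⟩
  · intro X D
    apply Subtype.ext
    change s (fun i => ∑ j, X i j • D j) l =
      algebraMap (fixedField G) L (X.det ^ (m * R) * ⟨s D l, fun g => hsG D l g⟩)
    rw [hsA, map_mul, map_pow]
    rfl
  · intro v hv D hD
    obtain ⟨w, ee, hwv, hreg⟩ := hloc v hv
    have hVreg : ∀ l (g : G), GeR w (-(m * (ee * δ v))) ((g : L ≃ₐ[k] L) (V D l)) := fun l g =>
      hreg D (fun j => ext (D j)) hD (fun j f => hext (D j) f) l g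
    have hesy : GeR w (r l * (-(m * (ee * δ v))))
        (esy (fun g : G => (g : L ≃ₐ[k] L) (V D (t l))) (r l)) := by
      unfold esy
      refine GeR.sum _ _ _ fun A hA => ?_
      have h1 := GeR.prod (w := w) A (-(m * (ee * δ v)))
        (fun g : G => (g : L ≃ₐ[k] L) (V D (t l))) (fun g _ => hVreg (t l) g)
      have h2 : A.card = r l := (Finset.mem_powersetCard.1 hA).2
      rw [h2] at h1
      exact h1
    have h1 := hesy.pow (q l)
    have h2 : GeR v (-((m * R : ℕ) * δ v)) (⟨s D l, fun g => hsG D l g⟩ :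
        fixedField G) := by
      apply GeR.down hwv
      change GeR w _ (s D l)
      refine h1.mono ?_
      have h3 : ((q l : ℝ) * r l) = R := by
        have := hrq l
        rw [mul_comm] at this
        exact_mod_cast this
      have h4 : (((m * R : ℕ)) : ℝ) = (m : ℝ) * (q l * r l) := by
        rw [h3]; push_cast; ring
      rw [h4]
      apply le_of_eq
      ring
    rcases h2 with h2 | h2
    · exact Or.inl h2
    · right
      refine ⟨1, by simp, one_ne_zero, ?_⟩
      simpa using h2
  · exact pow_ne_zero _ (hs0 l) (congrArg Subtype.val h0)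
  · have hsi' : AlgebraicIndependent k fun l : Fin a =>
        ((⟨s D0 l.succ, fun g => hsG D0 l.succ g⟩ / ⟨s D0 0, fun g => hsG D0 0 g⟩ :
          fixedField G) : L) := hsi
    exact (AlgHom.algebraicIndependent_iff (fixedField G).val (Subtype.val_injective)).1 hsi'

end

end Pool.Agent.V11168.Pair
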