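import Pool.Agent.V11168.Pair.Defs
import Pool.Agent.Y173.QM.Loc
import Pool.Agent.Y174.L3
import Pool.Agent.Y174.B4

/-! The local estimates for pairs. -/

set_option autoImplicit false
set_option linter.overlappingInstances false
set_option linter.unusedSectionVars false

universe u v

open FF IntermediateField Pool.Agent.W619.PQ Pool.Agent.W619.PL Pool.Agent.W619.TW
  Pool.Agent.W603.LV Pool.Agent.W619.Y Pool.Agent.W308.PG.YLOC Pool.Agent.Y173.QA
  Pool.Agent.Y173.QM Pool.Agent.Y174

namespace Pool.Agent.V11168.Pair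

section

variable {k : Type v} {L : Type u} [Field k] [CharZero k] [Field L] [Algebra k L]

/-- The local estimate from the invariant logarithmic vector fields. -/
theorem core_log (G : Subgroup (L ≃ₐ[k] L)) [Finite G] {n m : ℕ} (htr : Algebra.trdeg k L = n)
    {v : Place k (fixedField G)} {w : Place k L} {e : ℕ} (hwv : Over w v e) (h : G)
    {ω : (Fin n → Derivation k L L) → L} (hω : IsPluriForm k L n m ω) (N : ℤ)
    (hlog : ∀ E' : Fin n → Derivation k L L, (∀ j z, w.Reg (E' j z / z)) →
      (∀ j z, (h : L ≃ₐ[k] L) (E' j z) = E' j ((h : L ≃ₐ[k] L) z)) → Ge w (N + m * e) (ω E'))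
    (D : Fin n → Derivation k (fixedField G) (fixedField G))
    (D' : Fin n → Derivation k L L) (hD : ∀ j, Pres v (D j))
    (hDD : ∀ j (f : fixedField G), D' j (f : L) = (D j f : L)) : Ge w N (ω D') := by
  classical
  have hfd := fd_fixed G
  obtain ⟨s, hs0, hs⟩ := v.surj
  have hsL : algebraMap (fixedField G) L s ≠ 0 := by simpa using hs0
  have hlogcase : ∀ (E : Fin n → Derivation k (fixedField G) (fixedField G))
      (E' : Fin n → Derivation k L L), (∀ j, Pres v (E j)) →
      (∀ j (f : fixedField G), E' j (f : L) = (E j f : L)) →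
      (∀ j, v.Reg (E j s / s)) → Ge w (N + m * e) (ω E') := by
    intro E E' hE hEE hEs
    refine hlog E' ?_ ?_
    · intro j
      refine Pool.Agent.Y174.pLOG k (fixedField G) L v w e hwv (E' j) ?_
      intro f
      have h5 : v.Reg (E j f / f) := log_of_pres v (E j) (hE j) hs0 hs (hEs j) f
      have h6 : E' j (algebraMap (fixedField G) L f) / algebraMap (fixedField G) L f =
          algebraMap (fixedField G) L (E j f / f) := by
        rw [map_div₀]
        congr 1
        exact hEE j f
      rw [h6]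
      exact hwv.reg.2 h5
    · intro j z
      exact ext_comm G htr (E j) (E' j) (hEE j) h z
  by_cases hlg : ∀ j, v.Reg (D j s / s)
  · exact (hlogcase D D' hD hDD hlg).mono (by
      have : (0 : ℤ) ≤ m * e := by positivity
      linarith)
  push Not at hlg
  obtain ⟨j0, hj0⟩ := hlg
  have h5 : v.Reg (D j0 s) := hD j0 s (Or.inr (by omega))
  have h6 : D j0 s ≠ 0 := by
    intro h6
    apply hj0
    left
    rw [h6, zero_div]
  have h7 : v.ord (D j0 s) = 0 := by
    have h8 : 0 ≤ v.ord (D j0 s) := h5.resolve_left h6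
    by_contra h9
    apply hj0
    right
    rw [v.ord_div h6 hs0, hs]
    omega
  let c : Fin n → fixedField G := fun j => if j = j0 then 0 else -(D j s / D j0 s)
  let u : Fin n → fixedField G := fun j => if j = j0 then s else 1
  let E : Fin n → Derivation k (fixedField G) (fixedField G) := fun j =>
    u j • (D j + c j • D j0)
  let E' : Fin n → Derivation k L L := fun j =>
    (u j : L) • (D' j + (c j : L) • D' j0)
  have hinv : Ge v 0 (D j0 s)⁻¹ := Or.inr (by rw [v.ord_inv, h7]; simp)
  have hc : ∀ j, Ge v 0 (c j) := by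
    intro j
    by_cases hj : j = j0
    · left; simp [c, hj]
    · simp only [c, hj, if_false]
      have h8 : Ge v 0 (D j s) := hD j s (Or.inr (by omega))
      rw [div_eq_mul_inv]
      simpa using (h8.mul hinv).neg
  have hu : ∀ j, Ge v 0 (u j) := by
    intro j
    by_cases hj : j = j0
    · simp only [u, hj, if_true]; exact Or.inr (by omega)
    · simp only [u, hj, if_false]; exact Ge.one
  have hE : ∀ j, Pres v (E j) := by
    intro j f hf
    change Ge v 0 (u j * (D j f + c j * D j0 f))
    have h8 : Ge v 0 (D j f) := hD j f hf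
    have h9 : Ge v 0 (D j0 f) := hD j0 f hf
    have h10 := (hc j).mul h9
    rw [add_zero] at h10
    simpa using (hu j).mul (h8.add h10)
  have hEE : ∀ j (f : fixedField G), E' j (f : L) = (E j f : L) := by
    intro j f
    change (u j : L) * (D' j (f : L) + (c j : L) * D' j0 (f : L)) = _
    rw [hDD, hDD]
    rfl
  have hEs : ∀ j, v.Reg (E j s / s) := by
    intro j
    change v.Reg (u j * (D j s + c j * D j0 s) / s)
    by_cases hj : j = j0
    · have h8 : u j * (D j s + c j * D j0 s) / s = D j0 s := by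
        simp only [u, c, hj, if_true, zero_mul, add_zero]
        field_simp
      rw [h8]
      exact h5
    · have h8 : u j * (D j s + c j * D j0 s) / s = 0 := by
        simp only [u, c, hj, if_false]
        field_simp
        ring
      rw [h8]
      exact Or.inl rfl
  have hdet : ω E' = (s : L) ^ m * ω D' := by
    have h8 := pluri_change hω D' j0 (fun j => (c j : L)) (fun j => (u j : L)) (by simp [c])
    have h9 : ∏ j, (u j : L) = (s : L) := by
      have h10 : ∀ j, (u j : L) = if j = j0 then (s : L) else 1 := by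
        intro j
        simp only [u]
        split_ifs <;> rfl
      rw [Finset.prod_congr rfl fun j _ => h10 j]
      simp
    rw [h9] at h8
    exact h8
  have h10 := hlogcase E E' hE hEE hEs
  rw [hdet] at h10
  have hsL' : (s : L) ≠ 0 := hsL
  have hsord : w.ord (s : L) = e := by
    have h12 := hwv.2 s
    rw [hs, mul_one] at h12
    exact h12
  refine Ge.of_mul' (P := w) (N := N) (m := m * e) (pow_ne_zero m hsL') ?_ h10
  rw [w.ord_pow, hsord]

/-- The `m0`-form `a (dy) ^ m0` on the base is `a' (dz) ^ m0` with coordinates `z` regular at `w`,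
and `a'` of order at least `-(m0 c β)`, where `c` is the sum of the orders `bl` of the
coordinates. -/
def BGoodP (M : IntermediateField k L) (d m0 : ℕ) (δB : Place k M → ℝ) (w : Place k L)
    (y : Fin d → L) (a : L) : Prop :=
  ∃ (Z : Matrix (Fin d) (Fin d) L) (z : Fin d → L) (c : ℕ) (bl : Fin d → ℤ) (β : ℝ),
    (∀ l, z l ∈ M) ∧
    (∀ l, w.Reg (z l)) ∧ (∀ (D : Derivation k L L) l, D (y l) = ∑ c, Z l c * D (z c)) ∧
    GeR w (-(m0 * (c * β))) (a * Z.det ^ m0) ∧ BaseMult M δB w c β ∧
    (∀ l, Ge w (bl l) (z l)) ∧ ∑ l, bl l = c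

/-- pluricanonical forms on the base with bounded poles -/
theorem base_locP (M : IntermediateField k L) (d n m : ℕ) (hd : Algebra.trdeg k M = d)
    (hn : Algebra.trdeg k L = n)
    (hfin : ∀ y : Fin d → M, IsTranscendenceBasis k y →
      FiniteDimensional (IntermediateField.adjoin k (Set.range y)) M)
    {η : (Fin d → Derivation k M M) → M} (hη : IsPluriForm k M d m η)
    {y : Fin d → M} {E : Fin d → Derivation k M M} (hy : IsTranscendenceBasis k y)
    (hE : ∀ i j, E i (y j) = if i = j then 1 else 0)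
    {w : Place k L} (hw : IsDivisorial w n) {δB : Place k M → ℝ}
    (hreg : ∀ u : Place k M, IsDivisorial u d →
      ∀ D : Fin d → Derivation k M M, (∀ j, Pres u (D j)) → GeR u (-(m * δB u)) (η D)) :
    BGoodP M d m δB w (fun l => (y l : L)) ((η E : M) : L) := by
  by_cases htriv : ∃ f : M, w.ord (algebraMap M L f) ≠ 0
  · obtain ⟨e, u, hu⟩ := exists_over (K := M) w htriv
    have hdiv : IsDivisorial u d := Pool.Agent.W619.Y.pDIVR k M L d n u w e hd hn hu hw
    obtain ⟨y', E', i0, hy', hE', hord, hyr, hpres⟩ :=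
      Pool.Agent.W619.Y.pFRAME k M d hd hfin u hdiv
    have hregL : ∀ f : M, u.Reg f → w.Reg (algebraMap M L f) := by
      intro f hf
      rcases hf with hf | hf
      · left; rw [hf, map_zero]
      · right
        rw [hu.2]
        exact mul_nonneg (by positivity) hf
    have hy0 : y' i0 ≠ 0 := by
      intro h0
      rw [h0, u.ord_zero] at hord
      norm_num at hord
    have hord' : w.ord ((y' i0 : M) : L) = e := by
      have h1 := hu.2 (y' i0)
      rw [hord, mul_one] at h1
      exact h1
    refine ⟨Matrix.of fun l c => algebraMap M L (E' c (y l)), fun c => algebraMap M L (y' c),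
      e, fun l => if l = i0 then (e : ℤ) else 0, δB u, fun l => (y' l).2,
      fun c => hregL _ (hyr c), ?_, ?_, Or.inl ⟨u, hu, rfl⟩, ?_, ?_⟩
    · intro D l
      exact expand y' E' hy' hE' D (y l)
    · set A : Matrix (Fin d) (Fin d) M := Matrix.of fun c l => E' c (y l) with hA
      have h1 : η E' = A.det ^ m * η E := by
        have h2 := hη A E
        have h3 : (fun i => ∑ j, A i j • E j) = E' := by
          funext i
          exact (expandK y E hy hE (E' i)).symm
        rw [h3] at h2
        exact h2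
      have h4 : (Matrix.of fun l c => algebraMap M L (E' c (y l))).det = algebraMap M L A.det := by
        rw [RingHom.map_det, ← Matrix.det_transpose]
        rfl
      rw [h4]
      have h5 : ((η E : M) : L) * algebraMap M L A.det ^ m = algebraMap M L (η E') := by
        rw [h1, map_mul, map_pow, mul_comm]
        rfl
      rw [h5]
      rcases hreg u hdiv E' hpres with h6 | h6
      · left; rw [h6, map_zero]
      · right
        rw [hu.2]
        push_cast
        have h8 : (0 : ℝ) ≤ e := Nat.cast_nonneg e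
        have h9 : (e : ℝ) * (-(m * δB u)) ≤ e * (u.ord (η E') : ℝ) :=
          mul_le_mul_of_nonneg_left h6 h8
        linarith
    · intro l
      by_cases hl : l = i0
      · simp only [hl]
        exact Or.inr hord'.ge
      · simp only [if_neg hl]
        exact hregL _ (hyr l)
    · simp only []
      rw [Finset.sum_ite_eq' Finset.univ i0 (fun _ => (e : ℤ)), if_pos (Finset.mem_univ _)]
  · push Not at htriv
    refine ⟨1, fun l => (y l : L), 0, fun _ => 0, 0, fun l => (y l).2,
      fun c => Or.inr (htriv (y c)).ge, ?_, ?_, Or.inr ⟨rfl, fun x hx _ => htriv ⟨x, hx⟩⟩, ?_, ?_⟩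
    · intro D l
      rw [Finset.sum_eq_single l]
      · rw [Matrix.one_apply_eq, one_mul]
      · intro c _ hc
        rw [Matrix.one_apply_ne (Ne.symm hc), zero_mul]
      · intro h
        exact absurd (Finset.mem_univ l) h
    · rw [Matrix.det_one, one_pow, mul_one]
      right
      have h1 := htriv (η E)
      change w.ord ((η E : M) : L) = 0 at h1
      rw [h1]
      simp
    · intro l
      exact Or.inr (htriv (y l)).ge
    · simp

/-- the generator of the inertia group fixes the divisor pointwise -/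
theorem fix_of_rot {w : Place k L} {h : L ≃ₐ[k] L} {ζ : k} (hrot : Rot w h ζ) (z : L)
    (hz : w.Reg z) : h z - z = 0 ∨ 1 ≤ w.ord (h z - z) := by
  by_cases hz0 : z = 0
  · left; rw [hz0, map_zero, sub_zero]
  have hz' : 0 ≤ w.ord z := hz.resolve_left hz0
  have h1 : Ge w 1 (h z - algebraMap k L (ζ ^ (w.ord z)) * z) :=
    (hrot z hz0).mono (by omega)
  have h2 : Ge w 1 (algebraMap k L (ζ ^ (w.ord z)) * z - z) := by
    rcases hz'.eq_or_lt with h3 | h3
    · rw [← h3, zpow_zero, map_one, one_mul, sub_self]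
      exact Ge.zero
    · have h4 : Ge w 1 z := Or.inr (by omega)
      have h5 := (Ge.const (P := w) (ζ ^ (w.ord z))).mul h4
      rw [zero_add] at h5
      exact h5.sub h4
  have h3 := h1.add h2
  rw [sub_add_sub_cancel] at h3
  exact h3

/-- **The weighted local estimate at a ramified divisor.** -/
theorem rt_relP {m f : ℕ} {G : Subgroup (L ≃ₐ[k] L)} {M : IntermediateField k L}
    {V : Submodule k (Derivation k L L →ₗ[L] L)}
    (hstab : ∀ g ∈ G, ∀ θ ∈ V, ∃ θ' ∈ V, IsImage g θ θ') (w : Place k L)
    (hregw : ∀ θ ∈ V, ∀ D : Derivation k L L, Pres w D → w.Reg (θ D))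
    (h : L ≃ₐ[k] L) (hG : h ∈ G)
    {e : ℕ} (he : orderOf h = e) (he2 : 2 ≤ e) {ζ : k} (hζ : IsPrimitiveRoot ζ e)
    (hrot : Rot w h ζ)
    {z : Fin m → L} (hzM : ∀ l, z l ∈ M) {c : ℕ} {bl : Fin m → ℤ}
    (hbl : ∀ l, Ge w (bl l) (z l)) (hblc : ∑ l, bl l = c) (c0 : ℤ)
    (hRT : ∀ (θ : Fin f → Derivation k L L →ₗ[L] L) (a : Fin f → ℕ),
      (∀ i, θ i ∈ V ∧ a i < e ∧ IsImage h (θ i) (ζ ^ a i • θ i)) →
      IndepOver (m := m) M θ → c0 ≤ c + ∑ i, (a i : ℤ))
    (θ : Fin f → Derivation k L L →ₗ[L] L) (hθ : ∀ i, θ i ∈ V)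
    (E : Fin (m + f) → Derivation k L L) (hE : ∀ j z, w.Reg (E j z / z))
    (hEh : ∀ j z, h (E j z) = E j (h z)) :
    Ge w c0 (eta (fam z θ) E) := by
  classical
  have hact : ∀ θ ∈ V, act h θ ∈ V := by
    intro θ hθ
    obtain ⟨θ', h1, h2⟩ := hstab h hG θ hθ
    rw [isImage_iff] at h2
    rwa [← h2]
  have hT : ∀ x, ((act h) ^ e) x = x := by
    intro x
    rw [act_pow, ← he, pow_orderOf_eq_one]
    have := act_pow (1 : L ≃ₐ[k] L) 0 x
    rw [pow_zero, pow_zero, Module.End.one_apply] at this
    exact this.symm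
  have hPres : ∀ j, ∀ f, w.Reg f → w.Reg (E j f) := by
    intro j f hf
    by_cases hf0 : f = 0
    · rw [hf0, map_zero]; exact w.reg_zero
    · have h1 := w.reg_mul (hE j f) hf
      rwa [div_mul_cancel₀ _ hf0] at h1
  choose cc hcV hcT hcs using fun i => eig_decomp (by omega : 0 < e) hζ (act h) hT V hact (θ i) (hθ i)
  have he0 : 0 < e := by omega
  -- the decomposition of all the forms
  let z0 : Fin e := ⟨0, he0⟩
  let C : Fin (m + f) → Fin e → (Derivation k L L →ₗ[L] L) := fun i a =>
    Fin.addCases (motive := fun _ => Derivation k L L →ₗ[L] L)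
      (fun l => if a = z0 then Pool.Agent.Y173.QM.dform (z l) else 0) (fun l => cc l a) i
  have hCl : ∀ (l : Fin m) a, C (Fin.castAdd f l) a = if a = z0 then Pool.Agent.Y173.QM.dform (z l) else 0 := by
    intro l a
    simp only [C, Fin.addCases_left]
  have hCr : ∀ (l : Fin f) a, C (Fin.natAdd m l) a = cc l a := by
    intro l a
    simp only [C, Fin.addCases_right]
  have hCs : ∀ i, ∑ a, C i a = fam z θ i := by
    intro i
    refine Fin.addCases (fun l => ?_) (fun l => ?_) i
    · simp only [hCl]
      rw [Finset.sum_ite_eq' Finset.univ z0 (fun _ => Pool.Agent.Y173.QM.dform (z l)), if_pos (Finset.mem_univ _),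
        fam_left]
    · simp only [hCr]
      rw [hcs, fam_right]
  have hM : (Matrix.of fun i j => fam z θ i (E j)) = Matrix.of fun i j => (∑ a, C i a (E j)) := by
    ext i j
    rw [Matrix.of_apply, Matrix.of_apply]
    conv_lhs => rw [← hCs i]
    rw [LinearMap.sum_apply]
  have hdet : (Matrix.of fun i j => (∑ a, C i a (E j))).det =
      ∑ r : Fin (m + f) → Fin e, (Matrix.of fun i j => C i (r i) (E j)).det := by
    have h1 := (Matrix.detRowAlternating (R := L) (n := Fin (m + f))).toMultilinearMap.map_sum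
      (fun (i : Fin (m + f)) (a : Fin e) => (fun j => C i a (E j)))
    have h2 : (fun i => ∑ a : Fin e, (fun j => C i a (E j))) =
        Matrix.of fun i j => (∑ a, C i a (E j)) := by
      ext i j
      rw [Finset.sum_apply, Matrix.of_apply]
    rw [h2] at h1
    exact h1
  unfold eta
  rw [hM, hdet]
  refine Ge.sum _ _ fun r _ => ?_
  by_cases h0 : (Matrix.of fun i j => C i (r i) (E j)).det = 0
  · rw [h0]; exact Ge.zero
  have hr0 : ∀ l : Fin m, r (Fin.castAdd f l) = z0 := by
    intro l
    by_contra hne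
    apply h0
    apply Matrix.det_eq_zero_of_row_eq_zero (Fin.castAdd f l)
    intro j
    rw [Matrix.of_apply, hCl, if_neg hne]
    rfl
  have hfam : (fun i => C i (r i)) = fam z (fun i => cc i (r (Fin.natAdd m i))) := by
    funext i
    refine Fin.addCases (fun l => ?_) (fun l => ?_) i
    · rw [hCl, hr0, if_pos rfl, fam_left]
    · rw [hCr, fam_right]
  have hne : eta (fam z (fun i => cc i (r (Fin.natAdd m i)))) E ≠ 0 := by
    rw [← hfam]
    exact h0
  have h1 := hRT (fun i => cc i (r (Fin.natAdd m i))) (fun i => (r (Fin.natAdd m i) : ℕ))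
    (fun i => ⟨hcV i _, (r _).2, ?_⟩) ((indep_iff M _).2 ⟨z, E, hzM, hne⟩)
  · let bd : Fin (m + f) → ℤ := Fin.append bl (fun i => ((r (Fin.natAdd m i) : ℕ) : ℤ))
    have hsum : ∑ i, bd i = c + ∑ i, ((r (Fin.natAdd m i) : ℕ) : ℤ) := by
      rw [Fin.sum_univ_add]
      simp only [bd, Fin.append_left, Fin.append_right]
      rw [hblc]
    have h2 : Ge w (∑ i, bd i) (Matrix.of fun i j => C i (r i) (E j)).det := by
      refine ge_det_row w _ _ fun i j => ?_
      rw [Matrix.of_apply]
      refine Fin.addCases (fun l => ?_) (fun l => ?_) i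
      · rw [hCl, hr0, if_pos rfl, Pool.Agent.Y173.QM.dform_apply]
        simp only [bd, Fin.append_left]
        by_cases hz0 : z l = 0
        · rw [hz0, map_zero]; exact Ge.zero
        have h3 : Ge w 0 (E j (z l) / z l) := hE j (z l)
        have h4 := h3.mul (hbl l)
        rwa [zero_add, div_mul_cancel₀ _ hz0] at h4
      · rw [hCr]
        simp only [bd, Fin.append_right]
        refine eig_ord hζ w h hrot (r _).2 (hregw _ (hcV l _) (E j) (hPres j)) ?_
        have h3 := act_comm h (cc l (r (Fin.natAdd m l))) (E j) (hEh j)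
        rw [← h3, hcT]
        rfl
    refine h2.mono ?_
    rw [hsum]
    exact h1
  · rw [isImage_iff, hcT]

/-- the forms on the invariant logarithmic vector fields, on the base part -/
theorem fam_log {m f : ℕ} {w : Place k L} {z : Fin m → L} {c : ℕ} {bl : Fin m → ℤ}
    (hbl : ∀ l, Ge w (bl l) (z l)) (hblc : ∑ l, bl l = c)
    (θ : Fin f → Derivation k L L →ₗ[L] L) (E' : Fin (m + f) → Derivation k L L)
    (hlog : ∀ j z, w.Reg (E' j z / z)) (hθ : ∀ l j, w.Reg (θ l (E' j))) :
    Ge w c (eta (fam z θ) E') := by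
  let bd : Fin (m + f) → ℤ := Fin.append bl (fun _ => 0)
  have hsum : ∑ i, bd i = c := by
    rw [Fin.sum_univ_add]
    simp only [bd, Fin.append_left, Fin.append_right, Finset.sum_const_zero, add_zero]
    exact hblc
  have h3 : Ge w (∑ i, bd i) (Matrix.of fun i j => fam z θ i (E' j)).det := by
    refine ge_det_row w _ _ fun i j => ?_
    rw [Matrix.of_apply]
    refine Fin.addCases (fun l => ?_) (fun l => ?_) i
    · rw [fam_left, Pool.Agent.Y173.QM.dform_apply]
      simp only [bd, Fin.append_left]
      by_cases hz0 : z l = 0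
      · rw [hz0, map_zero]; exact Ge.zero
      have h3 : Ge w 0 (E' j (z l) / z l) := hlog j (z l)
      have h4 := h3.mul (hbl l)
      rwa [zero_add, div_mul_cancel₀ _ hz0] at h4
    · rw [fam_right]
      simp only [bd, Fin.append_right]
      exact hθ l j
  rw [hsum] at h3
  exact h3

/-- **The estimate for the sections of pairs.** -/
theorem est_pair {m f m0 : ℕ} (G : Subgroup (L ≃ₐ[k] L)) [Finite G]
    {M : IntermediateField k L} {V : Submodule k (Derivation k L L →ₗ[L] L)}
    (htr : Algebra.trdeg k L = (m + f : ℕ)) {Bd : Place k (fixedField G) → Prop}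
    {δ : Place k (fixedField G) → ℝ} (hδ0 : ∀ v, 0 ≤ δ v) (hδ1 : ∀ v, Bd v → 1 ≤ δ v)
    (hlogf : ∀ θ ∈ V, IsLogForm (m + f) (BdOn Bd) θ)
    (hstab : ∀ g ∈ G, ∀ θ ∈ V, ∃ θ' ∈ V, IsImage g θ θ')
    {δB : Place k M → ℝ} (hB1 : ∀ u, δB u ≤ 1) (hB2 : BaseBound (m + f) G M Bd δ δB)
    (hRT : ReidTaiPair m f G M V Bd δ δB)
    {v : Place k (fixedField G)} {w : Place k L} {e : ℕ} (hwv : Over w v e)
    (hw : IsDivisorial w (m + f)) {h : G} {ζ : k} (hord : orderOf (h : L ≃ₐ[k] L) = e)
    (hζ : IsPrimitiveRoot ζ e) (hrot : Rot w (h : L ≃ₐ[k] L) ζ)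
    {y : Fin m → L} {a : L} (hgood : BGoodP M m m0 δB w y a)
    {θ : Fin f → Derivation k L L →ₗ[L] L} (hθ : ∀ i, θ i ∈ V)
    {D : Fin (m + f) → Derivation k (fixedField G) (fixedField G)}
    {D' : Fin (m + f) → Derivation k L L} (hD : ∀ j, Pres v (D j))
    (hDD : ∀ j (f : fixedField G), D' j (f : L) = (D j f : L)) :
    GeR w (-(m0 * (e * δ v))) (a * eta (fam y θ) D' ^ m0) := by
  obtain ⟨Z, z, c, bl, β, hzM, hzr, hyz, hdet, hc, hbl, hblc⟩ := hgood
  have hpl := pluri_smul (pluri_pow (eta_pluri (fam y θ)) m0) a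
  rw [one_mul] at hpl
  have hval : ∀ E' : Fin (m + f) → Derivation k L L, a * eta (fam y θ) E' ^ m0 =
      (a * Z.det ^ m0) * eta (fam z θ) E' ^ m0 := by
    intro E'
    rw [eta_base Z hyz, mul_pow, mul_assoc]
  have he0 : (0 : ℝ) ≤ e := Nat.cast_nonneg e
  have hc0' : (0 : ℝ) ≤ c := Nat.cast_nonneg c
  have hm0 : (0 : ℝ) ≤ m0 := Nat.cast_nonneg m0
  have hv0 := hδ0 v
  have hcβ : (0 : ℝ) ≤ c * (1 - β) := by
    rcases hc with ⟨u, -, hu⟩ | ⟨h0, -⟩
    · have h1 := hB1 u
      rw [hu]
      exact mul_nonneg hc0' (by linarith)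
    · rw [h0]
      simp
  have hlogval : ∀ E' : Fin (m + f) → Derivation k L L, (∀ j z, w.Reg (E' j z / z)) →
      (∀ l j, w.Reg (θ l (E' j))) → GeR w (m0 * (c * (1 - β))) (a * eta (fam y θ) E' ^ m0) := by
    intro E' hlog hreg
    rw [hval]
    have h3 := hdet.mul ((Ge.toR (fam_log hbl hblc θ E' hlog hreg)).pow m0)
    refine h3.mono ?_
    push_cast
    apply le_of_eq
    ring
  by_cases hB : Bd v
  · have h1 : Ge w (-((m0 * e : ℕ) : ℤ)) (a * eta (fam y θ) D' ^ m0) := by
      refine core_log G htr hwv h hpl _ ?_ D D' hD hDD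
      intro E' hlog _
      have hPres : ∀ j, Pres w (E' j) := fun j => pres_of_log (hlog j)
      have h2 : GeR w 0 (a * eta (fam y θ) E' ^ m0) :=
        (hlogval E' hlog fun l j => hlogf _ (hθ l) w hw (E' j)
          ⟨fun _ f hf => hPres j f hf, fun _ => hlog j⟩).mono (mul_nonneg hm0 hcβ)
      have h3 : Ge w 0 (a * eta (fam y θ) E' ^ m0) := by
        rcases h2 with h2 | h2
        · exact Or.inl h2
        · right
          exact_mod_cast h2
      refine h3.mono ?_
      push_cast
      apply le_of_eq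
      ring
    refine (Ge.toR h1).mono ?_
    have h2 := hδ1 v hB
    push_cast
    have h3 : (m0 : ℝ) * e * 1 ≤ m0 * e * δ v := mul_le_mul_of_nonneg_left h2 (mul_nonneg hm0 he0)
    linarith
  · have hBw : ¬ BdOn Bd w := fun h' => hB ((bdOn_iff hwv).1 h')
    have hregw : ∀ θ ∈ V, ∀ D : Derivation k L L, Pres w D → w.Reg (θ D) := fun θ hθ D hD =>
      hlogf θ hθ w hw D ⟨fun _ => hD, fun h' => (hBw h').elim⟩
    by_cases he1 : e = 1
    · rcases hc with ⟨u, hu, hβ⟩ | ⟨hc00, -⟩
      · have h4 := hB2 v w u c hB hw (by rw [← he1]; exact hwv) hu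
        rw [← hβ] at h4
        have h1 : Ge w (⌈(m0 : ℝ) * (c * (1 - β))⌉ - m0) (a * eta (fam y θ) D' ^ m0) := by
          refine core_log G htr hwv h hpl _ ?_ D D' hD hDD
          intro E' hlog _
          have h2 := hlogval E' hlog fun l j => hregw _ (hθ l) (E' j) (pres_of_log (hlog j))
          have h3 : Ge w ⌈(m0 : ℝ) * (c * (1 - β))⌉ (a * eta (fam y θ) E' ^ m0) := by
            rcases h2 with h2 | h2
            · exact Or.inl h2
            · exact Or.inr (Int.ceil_le.2 h2)
          refine h3.mono ?_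
          rw [he1]
          push_cast
          apply le_of_eq
          ring
        refine (Ge.toR h1).mono ?_
        have h5 := Int.le_ceil ((m0 : ℝ) * (c * (1 - β)))
        have h6 : (m0 : ℝ) * (1 - δ v) ≤ m0 * (c * (1 - β)) := mul_le_mul_of_nonneg_left h4 hm0
        push_cast
        rw [he1]
        push_cast
        linarith
      · have hdet0 : Ge w 0 (a * Z.det ^ m0) := by
          rw [hc00] at hdet
          simp only [Nat.cast_zero, zero_mul, mul_zero, neg_zero] at hdet
          rcases hdet with h2 | h2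
          · exact Or.inl h2
          · right
            exact_mod_cast h2
        have h1 : Ge w 0 (a * eta (fam y θ) D' ^ m0) := by
          refine core G htr hwv h hpl 0 (fun h2 => by omega) ?_ D D' hD hDD
          intro _ E' hE'
          rw [hval]
          have h2 : Ge w 0 (eta (fam z θ) E') := by
            refine Pool.Agent.W619.PQ.ge_det w _ fun i j => ?_
            rw [Matrix.of_apply]
            refine Fin.addCases (fun l => ?_) (fun l => ?_) i
            · rw [fam_left, Pool.Agent.Y173.QM.dform_apply]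
              exact hE' j _ (hzr l)
            · rw [fam_right]
              exact hregw _ (hθ l) (E' j) (hE' j)
          have h3 := hdet0.mul (h2.pow m0)
          simpa using h3
        refine (Ge.toR h1).mono ?_
        push_cast
        have h3 : (0 : ℝ) ≤ m0 * (e * δ v) := mul_nonneg hm0 (mul_nonneg he0 hv0)
        linarith
    · have he2 : 2 ≤ e := by
        have := hwv.1
        omega
      obtain ⟨c0, hc0⟩ : ∃ c0 : ℤ, c0 = ⌈(e : ℝ) * (1 - δ v) + c * β⌉ := ⟨_, rfl⟩
      have h1 : Ge w (⌈(m0 : ℝ) * (e * (1 - δ v))⌉ - m0 * e) (a * eta (fam y θ) D' ^ m0) := by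
        refine core G htr hwv h hpl _ ?_ (fun h2 => absurd h2 he1) D D' hD hDD
        intro _ E' hlog hcomm
        rw [hval]
        have h2 : Ge w c0 (eta (fam z θ) E') := by
          refine rt_relP hstab w hregw h h.2 hord he2 hζ hrot hzM hbl hblc c0 ?_ θ hθ E' hlog
            hcomm
          intro θ' a' hθ' hind'
          have h3 := hRT h h.2 (fun h1 => by rw [h1, orderOf_one] at hord; omega) v w hB hw
            (by rw [hord]; exact hwv) (fix_of_rot hrot) ζ (by rw [hord]; exact hζ) θ' a'
            (fun i => ⟨(hθ' i).1, by rw [hord]; exact (hθ' i).2.1, (hθ' i).2.2⟩) hind' c β hc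
          rw [hord] at h3
          rw [hc0, Int.ceil_le]
          push_cast
          linarith
        have h3 := hdet.mul ((Ge.toR h2).pow m0)
        have h4 : (e : ℝ) * (1 - δ v) + c * β ≤ c0 := by
          rw [hc0]
          exact Int.le_ceil _
        have h5 : (m0 : ℝ) * (e * (1 - δ v) + c * β) ≤ m0 * c0 :=
          mul_le_mul_of_nonneg_left h4 hm0
        have h6 : GeR w (m0 * (e * (1 - δ v))) (a * Z.det ^ m0 * eta (fam z θ) E' ^ m0) :=
          h3.mono (by linarith)
        have h7 : Ge w ⌈(m0 : ℝ) * (e * (1 - δ v))⌉ (a * Z.det ^ m0 * eta (fam z θ) E' ^ m0) := by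
          rcases h6 with h6 | h6
          · exact Or.inl h6
          · exact Or.inr (Int.ceil_le.2 h6)
        refine h7.mono ?_
        apply le_of_eq
        ring
      refine (Ge.toR h1).mono ?_
      have h4 := Int.le_ceil ((m0 : ℝ) * (e * (1 - δ v)))
      push_cast
      linarith

end

end Pool.Agent.V11168.Pair
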