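import Pool.Agent.V11168.Rel.Low2
import Pool.Agent.V11168.Pair.Desc
import Pool.Agent.V11168.Pair.Loc

/-! The lower bound for the Kodaira dimension of a pair on the quotient of a fibre space. -/

set_option autoImplicit false
set_option linter.overlappingInstances false
set_option linter.unusedSectionVars false

open FF IntermediateField Pool.Agent.W619.PQ Pool.Agent.W619.PL Pool.Agent.W619.TW
  Pool.Agent.W603.LV Pool.Agent.W619.Y Pool.Agent.Y173.QA Pool.Agent.Y173.QM
  Pool.Agent.V11168.Abund Pool.Agent.V11168.Rel Pool.Agent.Y174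

namespace Pool.Agent.V11168.Pair

variable {k : Type} [Field k] [CharZero k] {L : Type} [Field L] [Algebra k L]
  {M : IntermediateField k L}

/-- **The lower bound.** -/
theorem kod_relP [IsAlgClosed k] (hessM : Algebra.EssFiniteType k M) {d r : ℕ}
    (G : Subgroup (L ≃ₐ[k] L)) [Finite G] (hM : Algebra.trdeg k M = d)
    (hn : Algebra.trdeg k L = (d + (r + 1) : ℕ))
    {Bd : Place k (fixedField G) → Prop} {δ : Place k (fixedField G) → ℝ} (hδ0 : ∀ v, 0 ≤ δ v)
    (hδ1 : ∀ v, Bd v → 1 ≤ δ v)
    {V : Submodule k (Derivation k L L →ₗ[L] L)}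
    (hlogf : ∀ θ ∈ V, IsLogForm (d + (r + 1)) (BdOn Bd) θ)
    (hstab : ∀ g ∈ G, ∀ θ ∈ V, ∃ θ' ∈ V, IsImage g θ θ')
    {δB : Place k M → ℝ} (hB1 : ∀ u, δB u ≤ 1) (hB2 : BaseBound (d + (r + 1)) G M Bd δ δB)
    (hRT : ReidTaiPair d (r + 1) G M V Bd δ δB)
    {y : Fin d → M} (hy : IsTranscendenceBasis k y)
    {θ : Fin (r + 1) → Derivation k L L →ₗ[L] L} (hθ : ∀ i, θ i ∈ V)
    {P : Fin (d + (r + 1)) → Derivation k L L}
    (hP1 : ∀ i j, fam (fun l => (y l : L)) θ i (P j) = if i = j then 1 else 0)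
    (hP2 : ∀ D, D = ∑ i, fam (fun l => (y l : L)) θ i D • P i)
    {a : ℕ} {t : Fin a → L} (ht : AlgebraicIndependent M t)
    (htP : ∀ j, ∃ τ ∈ V, ∃ i, t j = τ (P (Fin.natAdd d i))) {h : ℕ}
    (hkod : PairKod k M d δB h) : PairKod k (fixedField G) (d + (r + 1)) δ (h + a) := by
  classical
  obtain ⟨m0, hm0, η, hη, Dη, h0, hind⟩ := hkod
  obtain ⟨E, hE⟩ := Pool.Agent.W636.PG.exists_duals k M d y hy
  have hgood : ∀ l (w : Place k L), IsDivisorial w (d + (r + 1)) →
      BGoodP M d m0 δB w (fun l => (y l : L)) ((η l E : M) : L) := by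
    intro l w hw
    refine base_locP M d (d + (r + 1)) m0 hM hn
      (fun y hy => Pool.Agent.W824.PG.fin_adj hessM y hy)
      (hη l).1 hy hE hw (fun u hdu D hD => ?_)
    rcases (hη l).2 u hdu D hD with h1 | ⟨s, -, -, h1⟩
    · exact Or.inl h1
    · right
      refine le_trans ?_ h1
      push_cast
      linarith
  -- the values on the dual frame
  obtain ⟨A, hA⟩ : ∃ A : Matrix (Fin d) (Fin d) M, ∀ l, η l Dη = A.det ^ m0 * η l E := by
    refine ⟨Matrix.of fun i j => Dη i (y j), fun l => ?_⟩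
    have h2 := (hη l).1 (Matrix.of fun i j => Dη i (y j)) E
    have h3 : (fun i => ∑ j, (Matrix.of fun i j => Dη i (y j)) i j • E j) = Dη := by
      funext i
      exact Pool.Agent.W73.PG.PULL.expand y hy E hE (Dη i)
    rw [h3] at h2
    exact h2
  have hA0 : A.det ^ m0 ≠ 0 := fun h1 => h0 0 (by rw [hA, h1, zero_mul])
  have hηE : ∀ l, η l E ≠ 0 := fun l h1 => h0 l (by rw [hA, h1, mul_zero])
  have hratio : ∀ l : Fin h, η l.succ Dη / η 0 Dη = η l.succ E / η 0 E := by
    intro l
    rw [hA, hA, mul_div_mul_left _ _ hA0]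
  simp only [hratio] at hind
  choose τ hτ i hi using htP
  let φ : Fin (d + (r + 1)) → Derivation k L L →ₗ[L] L := fam (fun l => (y l : L)) θ
  have hφP : eta φ P = 1 := by
    unfold eta
    have h1 : (Matrix.of fun i j => φ i (P j)) = 1 := by
      ext i j
      rw [Matrix.of_apply, hP1, Matrix.one_apply]
    rw [h1, Matrix.det_one]
  let Θ : Fin a → Fin (r + 1) → Derivation k L L →ₗ[L] L := fun j =>
    Function.update θ (i j) (τ j)
  have hΘV : ∀ j b, Θ j b ∈ V := by
    intro j b
    by_cases hb : b = i j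
    · change Function.update θ (i j) (τ j) b ∈ V
      rw [hb, Function.update_self]
      exact hτ j
    · change Function.update θ (i j) (τ j) b ∈ V
      rw [Function.update_of_ne hb]
      exact hθ b
  have hΘ : ∀ j D, eta (fam (fun l => (y l : L)) (Θ j)) D = t j * eta φ D := by
    intro j D
    have h1 : fam (fun l => (y l : L)) (Θ j) =
        Function.update φ (Fin.natAdd d (i j)) (τ j) := by
      funext b
      refine Fin.addCases (fun l => ?_) (fun l => ?_) b
      · rw [fam_left, Function.update_of_ne]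
        · exact (fam_left (fun l => (y l : L)) θ l).symm
        · intro h
          have h3 := congrArg Fin.val h
          simp only [Fin.val_castAdd, Fin.val_natAdd] at h3
          omega
      · rw [fam_right]
        by_cases hl : l = i j
        · rw [hl, Function.update_self]
          exact Function.update_self _ _ _
        · rw [Function.update_of_ne (fun h => hl (Fin.natAdd_injective _ _ h))]
          change Function.update θ (i j) (τ j) l = _
          rw [Function.update_of_ne hl]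
          exact (fam_right (fun l => (y l : L)) θ l).symm
    rw [h1, eta_update hP2, hi]
  -- the forms
  let ψ : Fin (h + a) → (Fin (d + (r + 1)) → Derivation k L L) → L := Fin.append
    (fun l : Fin h => fun D => ((η l.succ E : M) : L) * eta φ D ^ m0)
    (fun j : Fin a => fun D => ((η 0 E : M) : L) *
      eta (fam (fun l => (y l : L)) (Θ j)) D ^ m0)
  let Ω : Fin (h + a + 1) → (Fin (d + (r + 1)) → Derivation k L L) → L :=
    Fin.cons (fun D => ((η 0 E : M) : L) * eta φ D ^ m0) ψ
  have hψ1 : ∀ l D, ψ (Fin.castAdd a l) D = ((η l.succ E : M) : L) * eta φ D ^ m0 := fun l D =>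
    congrFun (Fin.append_left _ _ l) D
  have hψ2 : ∀ j D, ψ (Fin.natAdd h j) D = ((η 0 E : M) : L) *
      eta (fam (fun l => (y l : L)) (Θ j)) D ^ m0 := fun j D =>
    congrFun (Fin.append_right _ _ j) D
  -- each of them has the shape of the estimate
  have hshape : ∀ l, ∃ (l0 : Fin (h + 1)) (θ' : Fin (r + 1) → Derivation k L L →ₗ[L] L),
      (∀ b, θ' b ∈ V) ∧ Ω l = fun D => ((η l0 E : M) : L) *
        eta (fam (fun l => (y l : L)) θ') D ^ m0 := by
    intro l
    refine Fin.cases ?_ (fun l => ?_) l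
    · exact ⟨0, θ, hθ, rfl⟩
    · refine Fin.addCases (fun l => ?_) (fun j => ?_) l
      · refine ⟨l.succ, θ, hθ, ?_⟩
        change ψ (Fin.castAdd a l) = _
        exact Fin.append_left _ _ l
      · refine ⟨0, Θ j, hΘV j, ?_⟩
        change ψ (Fin.natAdd h j) = _
        exact Fin.append_right _ _ j
  refine pair_descent G hn (m := m0) hm0 δ Ω ?_ ?_ P ?_ ?_
  · intro l
    obtain ⟨l0, θ', -, hl⟩ := hshape l
    rw [hl]
    have h1 := pluri_smul (pluri_pow (eta_pluri (fam (fun l => (y l : L)) θ')) m0)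
      ((η l0 E : M) : L)
    rw [one_mul] at h1
    exact h1
  · intro v hv
    obtain ⟨w, e, hwv, hg⟩ := exists_rot G v hv
    refine ⟨w, e, hwv, fun D D' hD hDD l g => ?_⟩
    obtain ⟨h1, h2, h, ζ, hord, hζ, hrot⟩ := hg g
    obtain ⟨l0, θ', hθ', hl⟩ := hshape l
    rw [← GeR.comp, hl]
    exact est_pair G hn hδ0 hδ1 hlogf hstab hB1 hB2 hRT h1 h2 hord hζ hrot
      (hgood l0 _ h2) hθ' hD hDD
  · intro l
    refine Fin.cases ?_ (fun l => ?_) l
    · change ((η 0 E : M) : L) * eta φ P ^ m0 ≠ 0
      rw [hφP, one_pow, mul_one]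
      exact fun h1 => hηE 0 (Subtype.ext h1)
    · refine Fin.addCases (fun l => ?_) (fun j => ?_) l
      · change ψ (Fin.castAdd a l) P ≠ 0
        rw [hψ1, hφP, one_pow, mul_one]
        exact fun h1 => hηE _ (Subtype.ext h1)
      · change ψ (Fin.natAdd h j) P ≠ 0
        rw [hψ2, hΘ, hφP, mul_one]
        exact mul_ne_zero (fun h1 => hηE _ (Subtype.ext h1)) (pow_ne_zero _ (ht.ne_zero j))
  · have h1 : (fun l : Fin (h + a) => Ω l.succ P / Ω 0 P) =
        Fin.append (fun l => ((η l.succ E / η 0 E : M) : L)) (fun j => t j ^ m0) := by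
      funext l
      have h2 : Ω 0 P = ((η 0 E : M) : L) := by
        change ((η 0 E : M) : L) * eta φ P ^ m0 = _
        rw [hφP, one_pow, mul_one]
      have h3 : ((η 0 E : M) : L) ≠ 0 := fun h1 => hηE 0 (Subtype.ext h1)
      rw [h2]
      refine Fin.addCases (fun l => ?_) (fun j => ?_) l
      · change ψ (Fin.castAdd a l) P / _ = _
        rw [hψ1, hφP, one_pow, mul_one, Fin.append_left]
        rfl
      · change ψ (Fin.natAdd h j) P / _ = _
        rw [hψ2, hΘ, hφP, mul_one, Fin.append_right, mul_div_cancel_left₀ _ h3]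
    rw [h1]
    exact indep_join hind (indep_pow hm0 ht)

end Pool.Agent.V11168.Pair
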