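import Pool.Agent.V11168.Pair.Str
import Pool.Agent.V11168.Pair.Low

/-! The generic fibre of a variety with closed logarithmic 1-forms, and the lower bound for pairs. -/

set_option autoImplicit false
set_option linter.overlappingInstances false
set_option linter.unusedSectionVars false

open FF IntermediateField Pool.Agent.W619.PQ Pool.Agent.W619.PL Pool.Agent.W619.TW
  Pool.Agent.W603.LV Pool.Agent.W619.Y Pool.Agent.Y173.QA Pool.Agent.Y173.QM
  Pool.Agent.V11168.Abund Pool.Agent.V11168.Rel Pool.Agent.Y174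

namespace Pool.Agent.V11168.Pair

variable {k : Type} [Field k] [CharZero k] {L : Type} [Field L] [Algebra k L]
  {M : IntermediateField k L}

/-- logarithmic forms have simple poles -/
theorem pol_of_log {n : ℕ} {Bd : Place k L → Prop} {θ : Derivation k L L →ₗ[L] L}
    (hθ : IsLogForm n Bd θ) : IsPolForm n θ := by
  intro w hw D hD
  by_cases hB : Bd w
  · obtain ⟨s, hs0, hs⟩ := w.surj
    have h1 : ∀ f, w.Reg ((s • D) f / f) := by
      intro f
      by_cases hf : f = 0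
      · rw [hf, div_zero]; exact w.reg_zero
      have h2 := ge_der hD hf
      have h3 : Ge w 1 s := Or.inr hs.ge
      have h4 : Ge w (-(w.ord f)) f⁻¹ := Or.inr (by rw [w.ord_inv])
      have h5 := (h3.mul h2).mul h4
      rw [Derivation.smul_apply, smul_eq_mul, div_eq_mul_inv]
      exact h5.mono (by omega)
    have h2 : Ge w 0 (θ (s • D)) := hθ w hw (s • D) ⟨fun h => absurd hB h, fun _ => h1⟩
    rw [map_smul, smul_eq_mul] at h2
    have h3 : Ge w (-1) s⁻¹ := Or.inr (by rw [w.ord_inv, hs])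
    have h4 := h3.mul h2
    rwa [← mul_assoc, inv_mul_cancel₀ hs0, one_mul, add_zero] at h4
  · have h1 : Ge w 0 (θ D) := hθ w hw D ⟨fun _ => hD, fun h => absurd h hB⟩
    exact h1.mono (by norm_num)

theorem pol_fibre (hess : Algebra.EssFiniteType k L) {d r : ℕ} (hM : Algebra.trdeg k M = d)
    (hn : Algebra.trdeg k L = (d + (r + 1) : ℕ)) {V : Submodule k (Derivation k L L →ₗ[L] L)}
    (hreg : ∀ θ ∈ V, IsPolForm (d + (r + 1)) θ) : ∀ θ ∈ fibreForms M V, IsPolForm (r + 1) θ := by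
  obtain ⟨t, ht⟩ := Pool.Agent.W636.PG.exists_basis k M d hM
  intro θ hθ w hw D hD
  unfold fibreForms at hθ
  induction hθ using Submodule.span_induction with
  | mem θ hθ =>
    obtain ⟨θ0, hθ0, rfl⟩ := hθ
    exact hreg θ0 hθ0 (Pool.Agent.Y174.resPl k w)
      (Pool.Agent.Y174.exists_frame_fib hess hn ht.1 hw).1 (D.restrictScalars k) hD
  | zero => exact Ge.zero
  | add θ θ' _ _ h h' =>
    rw [LinearMap.add_apply]
    exact h.add h'
  | smul c θ _ h =>
    rw [LinearMap.smul_apply, Algebra.smul_def]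
    have h2 := (Ge.const (P := w) c).mul h
    rwa [zero_add] at h2

/-- **The structure of the generic fibre.** -/
theorem fibre_strP (hess : Algebra.EssFiniteType k L) (hMcl : ∀ x : L, IsAlgebraic M x → x ∈ M)
    {d r : ℕ} (hM : Algebra.trdeg k M = d) (hn : Algebra.trdeg k L = (d + (r + 1) : ℕ))
    {V : Submodule k (Derivation k L L →ₗ[L] L)} (hreg : ∀ θ ∈ V, IsPolForm (d + (r + 1)) θ)
    (hcl : ∀ θ ∈ V, IsClosedForm θ)
    {y : Fin d → M}
    {θ : Fin (r + 1) → Derivation k L L →ₗ[L] L} (hθ : ∀ i, θ i ∈ V)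
    {P : Fin (d + (r + 1)) → Derivation k L L} {Pv : Fin (r + 1) → Derivation M L L}
    (hP : ∀ i j, fam (fun l => (y l : L)) θ i (P j) = if i = j then 1 else 0)
    (hPv : ∀ j, (Pv j).restrictScalars k = P (Fin.natAdd d j)) :
    ∃ (a s : ℕ) (t : Fin a → L) (U : Fin s → Derivation M L L),
      a + s = r + 1 ∧ AlgebraicIndependent M t ∧
      (∀ j, ∃ τ ∈ V, ∃ i, t j = τ (P (Fin.natAdd d i))) ∧
      (∀ i, U i ∈ constFields (fibreForms M V)) ∧ (∀ i j, U i (t j) = 0) ∧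
      (∀ D : Derivation M L L, (∀ j, D (t j) = 0) → ∃ c : Fin s → L, D = ∑ i, c i • U i) ∧
      Module.finrank M (constFields (fibreForms M V)) = s := by
  classical
  have hθP : ∀ i j, toFibre M (θ i) (Pv j) = if i = j then 1 else 0 := by
    intro i j
    rw [toFibre_apply, hPv]
    have h1 := hP (Fin.natAdd d i) (Fin.natAdd d j)
    rw [fam_right] at h1
    rw [h1]
    by_cases hij : i = j
    · rw [if_pos hij, if_pos (by rw [hij])]
    · rw [if_neg hij, if_neg (fun h => hij (Fin.natAdd_injective _ _ h))]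
  have hdet : eta (fun i => toFibre M (θ i)) Pv ≠ 0 := by
    unfold eta
    have h1 : (Matrix.of fun i j => toFibre M (θ i) (Pv j)) = 1 := by
      ext i j
      rw [Matrix.of_apply, hθP, Matrix.one_apply]
    rw [h1, Matrix.det_one]
    exact one_ne_zero
  have hsub : ∀ τ ∈ V, toFibre M τ ∈ fibreForms M V := fun τ hτ =>
    Submodule.subset_span ⟨τ, hτ, rfl⟩
  have hregF := pol_fibre (M := M) hess hM hn hreg
  obtain ⟨a, s, t, P', U, has, ht, hP1, hP2, htS, hU, hUt, hUspan, -, hrank⟩ :=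
    structure_log (k := M) (L := L) (fun x hx => ⟨⟨x, hMcl x hx⟩, rfl⟩)
      (Pool.Agent.Y174.trdeg_LK (L := M) hM hn) (fun y hy => fin_fib hess y hy)
      (toFibre M '' (V : Set (Derivation k L L →ₗ[L] L))) (fibreForms M V) rfl
      hregF (closed_fibre hcl) (θ := fun i => toFibre M (θ i)) (fun i => hsub _ (hθ i)) hdet
  have hPP : ∀ j, Pv j = P' j := by
    intro j
    rw [hP2 (Pv j), Finset.sum_eq_single j]
    · rw [hθP, if_pos rfl, one_smul]
    · intro b _ hb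
      rw [hθP, if_neg hb, zero_smul]
    · intro h
      exact absurd (Finset.mem_univ _) h
  refine ⟨a, s, t, U, has, ht, fun j => ?_, hU, hUt, hUspan, hrank⟩
  obtain ⟨τ', ⟨τ, hτ, rfl⟩, i, hi⟩ := htS j
  refine ⟨τ, hτ, i, ?_⟩
  rw [hi, toFibre_apply, ← hPP, hPv]

/-- **The lower bound, with closed logarithmic forms.** -/
theorem lower_main [IsAlgClosed k] [hess : Algebra.EssFiniteType k L]
    [hessM : Algebra.EssFiniteType k M] (hMcl : ∀ x : L, IsAlgebraic M x → x ∈ M) {d r : ℕ}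
    (hM : Algebra.trdeg k M = d) (hn : Algebra.trdeg k L = (d + (r + 1) : ℕ))
    (G : Subgroup (L ≃ₐ[k] L)) [Finite G]
    {Bd : Place k (fixedField G) → Prop} {δ : Place k (fixedField G) → ℝ} (hδ0 : ∀ v, 0 ≤ δ v)
    (hδ1 : ∀ v, Bd v → 1 ≤ δ v)
    {V : Submodule k (Derivation k L L →ₗ[L] L)}
    (hlogf : ∀ θ ∈ V, IsLogForm (d + (r + 1)) (BdOn Bd) θ)
    (hcl : ∀ θ ∈ V, IsClosedForm θ)
    (hstab : ∀ g ∈ G, ∀ θ ∈ V, ∃ θ' ∈ V, IsImage g θ θ')
    {δB : Place k M → ℝ} (hB1 : ∀ u, δB u ≤ 1) (hB2 : BaseBound (d + (r + 1)) G M Bd δ δB)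
    (hRT : ReidTaiPair d (r + 1) G M V Bd δ δB)
    {θ : Fin (r + 1) → Derivation k L L →ₗ[L] L} (hθ : ∀ i, θ i ∈ V)
    (hind : IndepOver (m := d) M θ) :
    ∃ (a s : ℕ) (t : Fin a → L) (U : Fin s → Derivation M L L),
      a + s = r + 1 ∧ Module.finrank M (constFields (fibreForms M V)) = s ∧
      AlgebraicIndependent M t ∧ (∀ i, U i ∈ constFields (fibreForms M V)) ∧
      (∀ i j, U i (t j) = 0) ∧
      (∀ D : Derivation M L L, (∀ j, D (t j) = 0) → ∃ c : Fin s → L, D = ∑ i, c i • U i) ∧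
      ∀ h, PairKod k M d δB h → PairKod k (fixedField G) (d + (r + 1)) δ (h + a) := by
  obtain ⟨y, hy⟩ := Pool.Agent.W636.PG.exists_basis k M d hM
  obtain ⟨P, Pv, hP1, hP2, hPv⟩ := frame_fib hn hy hind
  obtain ⟨a, s, t, U, has, ht, htP, hU, hUt, hUspan, hrank⟩ :=
    fibre_strP hess hMcl hM hn (fun θ hθ => pol_of_log (hlogf θ hθ)) hcl hθ hP1 hPv
  exact ⟨a, s, t, U, has, hrank, ht, hU, hUt, hUspan, fun h hh =>
    kod_relP hessM G hM hn hδ0 hδ1 hlogf hstab hB1 hB2 hRT hy hθ hP1 hP2 ht htP hh⟩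

/-- **The lower bound, without closedness.** -/
theorem lower_zero [IsAlgClosed k]
    [hessM : Algebra.EssFiniteType k M] {d r : ℕ}
    (hM : Algebra.trdeg k M = d) (hn : Algebra.trdeg k L = (d + (r + 1) : ℕ))
    (G : Subgroup (L ≃ₐ[k] L)) [Finite G]
    {Bd : Place k (fixedField G) → Prop} {δ : Place k (fixedField G) → ℝ} (hδ0 : ∀ v, 0 ≤ δ v)
    (hδ1 : ∀ v, Bd v → 1 ≤ δ v)
    {V : Submodule k (Derivation k L L →ₗ[L] L)}
    (hlogf : ∀ θ ∈ V, IsLogForm (d + (r + 1)) (BdOn Bd) θ)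
    (hstab : ∀ g ∈ G, ∀ θ ∈ V, ∃ θ' ∈ V, IsImage g θ θ')
    {δB : Place k M → ℝ} (hB1 : ∀ u, δB u ≤ 1) (hB2 : BaseBound (d + (r + 1)) G M Bd δ δB)
    (hRT : ReidTaiPair d (r + 1) G M V Bd δ δB)
    {θ : Fin (r + 1) → Derivation k L L →ₗ[L] L} (hθ : ∀ i, θ i ∈ V)
    (hind : IndepOver (m := d) M θ) {h : ℕ} (hh : PairKod k M d δB h) :
    PairKod k (fixedField G) (d + (r + 1)) δ h := by
  obtain ⟨y, hy⟩ := Pool.Agent.W636.PG.exists_basis k M d hM
  obtain ⟨P, Pv, hP1, hP2, hPv⟩ := frame_fib hn hy hind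
  have h1 := kod_relP hessM G hM hn hδ0 hδ1 hlogf hstab hB1 hB2 hRT hy hθ hP1 hP2 (a := 0)
    (t := fun i => i.elim0) (algebraicIndependent_empty_type) (fun j => j.elim0) hh
  exact h1

end Pool.Agent.V11168.Pair
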