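import Pool.Agent.V11168.Pair.Point

/-! The strict condition of Reid-Tai type for pairs: comparison of the pair on the quotient and the
pair on the cover. -/

set_option autoImplicit false
set_option linter.overlappingInstances false
set_option linter.unusedSectionVars false

open FF IntermediateField Pool.Agent.W619.PQ Pool.Agent.W619.PL Pool.Agent.W619.TW
  Pool.Agent.W603.LV Pool.Agent.W619.Y Pool.Agent.W308.PG.YLOC Pool.Agent.Y173.QA
  Pool.Agent.Y173.QM Pool.Agent.Y174 Pool.Agent.V11168.Rel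

namespace Pool.Agent.V11168.Pair

section

variable {k : Type} {L : Type} [Field k] [CharZero k] [Field L] [Algebra k L]

/-- The strict weighted condition of Reid-Tai type for the pair `(X, Δ)` over `(B, Δ_B)`, where `X` is
the quotient by `G`, `Δ` has the multiplicity `δ v` along the prime divisor `v` over `X`, and `Δ_B` has
the multiplicity `δB u` along the prime divisor `u` over `B`: let `w` be a prime divisor over `Z` with
ramification index `e ≥ 2` over the prime divisor `v` with `¬ Bd v`, let `g` in `G`, of order `e`, fix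
`w` pointwise, and let `θ 1, ..., θ f` in `V`, independent relative to `M`, be eigenvectors of `g` with
the eigenvalues `ζ ^ a 1, ..., ζ ^ a f`, `0 ≤ a i < e`, where `ζ` is a primitive `e`-th root of unity;
then `c (1 - β) + ∑ a i ≥ e (1 - δ v)`, and even `≥ e (1 - δ v) + ε` if `e (1 - δ v) > 1`, where
`c = 0` if `w` dominates `B`, and otherwise `c` is the multiplicity along `w` of the pull-back of its
image `u` in `B`, and `β = δB u`. -/
def ReidTaiStrict (m f : ℕ) (G : Subgroup (L ≃ₐ[k] L)) (M : IntermediateField k L)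
    (V : Submodule k (Derivation k L L →ₗ[L] L)) (Bd : Place k (fixedField G) → Prop)
    (δ : Place k (fixedField G) → ℝ) (δB : Place k M → ℝ) (ε : ℝ) : Prop :=
  ∀ g ∈ G, g ≠ 1 → ∀ (v : Place k (fixedField G)) (w : Place k L), ¬ Bd v →
    IsDivisorial w (m + f) → LiesOn w v (orderOf g) →
    (∀ z, w.Reg z → g z - z = 0 ∨ 1 ≤ w.ord (g z - z)) →
    ∀ ζ : k, IsPrimitiveRoot ζ (orderOf g) →
    ∀ (θ : Fin f → Derivation k L L →ₗ[L] L) (a : Fin f → ℕ),
      (∀ i, θ i ∈ V ∧ a i < orderOf g ∧ IsImage g (θ i) (ζ ^ a i • θ i)) →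
      IndepOver (m := m) M θ → ∀ (c : ℕ) (β : ℝ), BaseMult M δB w c β →
        (orderOf g : ℝ) * (1 - δ v) ≤ c * (1 - β) + ∑ i, (a i : ℝ) ∧
        (1 < (orderOf g : ℝ) * (1 - δ v) →
          (orderOf g : ℝ) * (1 - δ v) + ε ≤ c * (1 - β) + ∑ i, (a i : ℝ))

/-- The estimate for the sections of pairs, with local hypotheses. -/
theorem est_loc {m f m0 : ℕ} (G : Subgroup (L ≃ₐ[k] L)) [Finite G]
    {M : IntermediateField k L} {V : Submodule k (Derivation k L L →ₗ[L] L)}
    (htr : Algebra.trdeg k L = (m + f : ℕ)) {Bd : Place k (fixedField G) → Prop}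
    (hlogf : ∀ θ ∈ V, IsLogForm (m + f) (BdOn Bd) θ)
    (hstab : ∀ g ∈ G, ∀ θ ∈ V, ∃ θ' ∈ V, IsImage g θ θ')
    {δB : Place k M → ℝ} (hB1 : ∀ u, δB u ≤ 1)
    {v : Place k (fixedField G)} {w : Place k L} {e : ℕ} (hwv : Over w v e)
    (hw : IsDivisorial w (m + f)) {h : G} {ζ : k} (hord : orderOf (h : L ≃ₐ[k] L) = e)
    (hζ : IsPrimitiveRoot ζ e) (hrot : Rot w (h : L ≃ₐ[k] L) ζ)
    {δv : ℝ} (hv0 : e = 1 → 0 ≤ δv) (hv1 : Bd v → 1 ≤ δv)
    (hBXv : ¬ Bd v → e = 1 → ∀ (u : Place k M) (c : ℕ), LiesOn w u c → 1 - δv ≤ c * (1 - δB u))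
    (hRTv : ¬ Bd v → 2 ≤ e → ∀ (θ : Fin f → Derivation k L L →ₗ[L] L) (a : Fin f → ℕ),
      (∀ i, θ i ∈ V ∧ a i < e ∧ IsImage (h : L ≃ₐ[k] L) (θ i) (ζ ^ a i • θ i)) →
      IndepOver (m := m) M θ → ∀ (c : ℕ) (β : ℝ), BaseMult M δB w c β →
        (e : ℝ) * (1 - δv) ≤ c * (1 - β) + ∑ i, (a i : ℝ))
    {y : Fin m → L} {a : L} (hgood : BGoodP M m m0 δB w y a)
    {θ : Fin f → Derivation k L L →ₗ[L] L} (hθ : ∀ i, θ i ∈ V)
    {D : Fin (m + f) → Derivation k (fixedField G) (fixedField G)}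
    {D' : Fin (m + f) → Derivation k L L} (hD : ∀ j, Pres v (D j))
    (hDD : ∀ j (f : fixedField G), D' j (f : L) = (D j f : L)) :
    GeR w (-(m0 * (e * δv))) (a * eta (fam y θ) D' ^ m0) := by
  obtain ⟨Z, z, c, bl, β, hzM, hzr, hyz, hdet, hc, hbl, hblc⟩ := hgood
  have hpl := pluri_smul (pluri_pow (eta_pluri (fam y θ)) m0) a
  rw [one_mul] at hpl
  have hval : ∀ E' : Fin (m + f) → Derivation k L L, a * eta (fam y θ) E' ^ m0 =
      (a * Z.det ^ m0) * eta (fam z θ) E' ^ m0 := by
    intro E'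
    rw [eta_base Z hyz, mul_pow, mul_assoc]
  have he0 : (0 : ℝ) ≤ e := Nat.cast_nonneg e
  have hc0' : (0 : ℝ) ≤ c := Nat.cast_nonneg c
  have hm0 : (0 : ℝ) ≤ m0 := Nat.cast_nonneg m0
  have hcβ : (0 : ℝ) ≤ c * (1 - β) := by
    rcases hc with ⟨u, -, hu⟩ | ⟨h0, -⟩
    · have h1 := hB1 u
      rw [hu]
      exact mul_nonneg hc0' (by linarith)
    · rw [h0]
      simp
  have hlogval : ∀ E' : Fin (m + f) → Derivation k L L, (∀ j z, w.Reg (E' j z / z)) →
      (∀ l j, w.Reg (θ l (E' j))) → GeR w (m0 * (c * (1 - β))) (a * eta (fam y θ) E' ^ m0) := by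
    intro E' hlog hreg
    rw [hval]
    have h3 := hdet.mul ((Ge.toR (fam_log hbl hblc θ E' hlog hreg)).pow m0)
    refine h3.mono ?_
    push_cast
    apply le_of_eq
    ring
  by_cases hB : Bd v
  · have h1 : Ge w (-((m0 * e : ℕ) : ℤ)) (a * eta (fam y θ) D' ^ m0) := by
      refine core_log G htr hwv h hpl _ ?_ D D' hD hDD
      intro E' hlog _
      have hPres : ∀ j, Pres w (E' j) := fun j => pres_of_log (hlog j)
      have h2 : GeR w 0 (a * eta (fam y θ) E' ^ m0) :=
        (hlogval E' hlog fun l j => hlogf _ (hθ l) w hw (E' j)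
          ⟨fun _ f hf => hPres j f hf, fun _ => hlog j⟩).mono (mul_nonneg hm0 hcβ)
      have h3 : Ge w 0 (a * eta (fam y θ) E' ^ m0) := by
        rcases h2 with h2 | h2
        · exact Or.inl h2
        · right
          exact_mod_cast h2
      refine h3.mono ?_
      push_cast
      apply le_of_eq
      ring
    refine (Ge.toR h1).mono ?_
    have h2 := hv1 hB
    push_cast
    have h3 : (m0 : ℝ) * e * 1 ≤ m0 * e * δv := mul_le_mul_of_nonneg_left h2 (mul_nonneg hm0 he0)
    linarith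
  · have hBw : ¬ BdOn Bd w := fun h' => hB ((bdOn_iff hwv).1 h')
    have hregw : ∀ θ ∈ V, ∀ D : Derivation k L L, Pres w D → w.Reg (θ D) := fun θ hθ D hD =>
      hlogf θ hθ w hw D ⟨fun _ => hD, fun h' => (hBw h').elim⟩
    by_cases he1 : e = 1
    · rcases hc with ⟨u, hu, hβ⟩ | ⟨hc00, -⟩
      · have h4 := hBXv hB he1 u c hu
        rw [← hβ] at h4
        have h1 : Ge w (⌈(m0 : ℝ) * (c * (1 - β))⌉ - m0) (a * eta (fam y θ) D' ^ m0) := by
          refine core_log G htr hwv h hpl _ ?_ D D' hD hDD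
          intro E' hlog _
          have h2 := hlogval E' hlog fun l j => hregw _ (hθ l) (E' j) (pres_of_log (hlog j))
          have h3 : Ge w ⌈(m0 : ℝ) * (c * (1 - β))⌉ (a * eta (fam y θ) E' ^ m0) := by
            rcases h2 with h2 | h2
            · exact Or.inl h2
            · exact Or.inr (Int.ceil_le.2 h2)
          refine h3.mono ?_
          rw [he1]
          push_cast
          apply le_of_eq
          ring
        refine (Ge.toR h1).mono ?_
        have h5 := Int.le_ceil ((m0 : ℝ) * (c * (1 - β)))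
        have h6 : (m0 : ℝ) * (1 - δv) ≤ m0 * (c * (1 - β)) := mul_le_mul_of_nonneg_left h4 hm0
        push_cast
        rw [he1]
        push_cast
        linarith
      · have hdet0 : Ge w 0 (a * Z.det ^ m0) := by
          rw [hc00] at hdet
          simp only [Nat.cast_zero, zero_mul, mul_zero, neg_zero] at hdet
          rcases hdet with h2 | h2
          · exact Or.inl h2
          · right
            exact_mod_cast h2
        have h1 : Ge w 0 (a * eta (fam y θ) D' ^ m0) := by
          refine core G htr hwv h hpl 0 (fun h2 => by omega) ?_ D D' hD hDD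
          intro _ E' hE'
          rw [hval]
          have h2 : Ge w 0 (eta (fam z θ) E') := by
            refine Pool.Agent.W619.PQ.ge_det w _ fun i j => ?_
            rw [Matrix.of_apply]
            refine Fin.addCases (fun l => ?_) (fun l => ?_) i
            · rw [fam_left, Pool.Agent.Y173.QM.dform_apply]
              exact hE' j _ (hzr l)
            · rw [fam_right]
              exact hregw _ (hθ l) (E' j) (hE' j)
          have h3 := hdet0.mul (h2.pow m0)
          simpa using h3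
        refine (Ge.toR h1).mono ?_
        push_cast
        have h3 : (0 : ℝ) ≤ m0 * (e * δv) := mul_nonneg hm0 (mul_nonneg he0 (hv0 he1))
        linarith
    · have he2 : 2 ≤ e := by
        have := hwv.1
        omega
      obtain ⟨c0, hc0⟩ : ∃ c0 : ℤ, c0 = ⌈(e : ℝ) * (1 - δv) + c * β⌉ := ⟨_, rfl⟩
      have h1 : Ge w (⌈(m0 : ℝ) * (e * (1 - δv))⌉ - m0 * e) (a * eta (fam y θ) D' ^ m0) := by
        refine core G htr hwv h hpl _ ?_ (fun h2 => absurd h2 he1) D D' hD hDD
        intro _ E' hlog hcomm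
        rw [hval]
        have h2 : Ge w c0 (eta (fam z θ) E') := by
          refine rt_relP hstab w hregw h h.2 hord he2 hζ hrot hzM hbl hblc c0 ?_ θ hθ E' hlog
            hcomm
          intro θ' a' hθ' hind'
          have h3 := hRTv hB he2 θ' a' hθ' hind' c β hc
          rw [hc0, Int.ceil_le]
          push_cast
          linarith
        have h3 := hdet.mul ((Ge.toR h2).pow m0)
        have h4 : (e : ℝ) * (1 - δv) + c * β ≤ c0 := by
          rw [hc0]
          exact Int.le_ceil _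
        have h5 : (m0 : ℝ) * (e * (1 - δv) + c * β) ≤ m0 * c0 :=
          mul_le_mul_of_nonneg_left h4 hm0
        have h6 : GeR w (m0 * (e * (1 - δv))) (a * Z.det ^ m0 * eta (fam z θ) E' ^ m0) :=
          h3.mono (by linarith)
        have h7 : Ge w ⌈(m0 : ℝ) * (e * (1 - δv))⌉ (a * Z.det ^ m0 * eta (fam z θ) E' ^ m0) := by
          rcases h6 with h6 | h6
          · exact Or.inl h6
          · exact Or.inr (Int.ceil_le.2 h6)
        refine h7.mono ?_
        apply le_of_eq
        ring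
      refine (Ge.toR h1).mono ?_
      have h4 := Int.le_ceil ((m0 : ℝ) * (e * (1 - δv)))
      push_cast
      linarith

/-- **The Kodaira dimension of the pair on the cover is at most the one of the pair on the
quotient.** -/
theorem transfer [IsAlgClosed k] [hess : Algebra.EssFiniteType k L] {M : IntermediateField k L}
    [hessM : Algebra.EssFiniteType k M] {d r : ℕ}
    (hM : Algebra.trdeg k M = d) (hn : Algebra.trdeg k L = (d + (r + 1) : ℕ))
    (G : Subgroup (L ≃ₐ[k] L)) [Finite G]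
    {Bd : Place k (fixedField G) → Prop} {δ : Place k (fixedField G) → ℝ} (hδ0 : ∀ v, 0 ≤ δ v)
    (hδ1 : ∀ v, Bd v → 1 ≤ δ v)
    {V : Submodule k (Derivation k L L →ₗ[L] L)}
    (hlogf : ∀ θ ∈ V, IsLogForm (d + (r + 1)) (BdOn Bd) θ)
    (hstab : ∀ g ∈ G, ∀ θ ∈ V, ∃ θ' ∈ V, IsImage g θ θ')
    {δB : Place k M → ℝ} (hB1 : ∀ u, δB u ≤ 1) (hB2 : BaseBound (d + (r + 1)) G M Bd δ δB)
    {ε : ℝ} (hε : 0 < ε) (hRT : ReidTaiStrict d (r + 1) G M V Bd δ δB ε)
    {θ : Fin (r + 1) → Derivation k L L →ₗ[L] L} (hθ : ∀ i, θ i ∈ V)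
    (hind : IndepOver (m := d) M θ) (hB0 : PairKod k M d δB 0)
    {δ' : Place k L → ℝ} (hδ' : IsPull δ δ') {a : ℕ}
    (hL : PairKod k L (d + (r + 1)) δ' a) : PairKod k (fixedField G) (d + (r + 1)) δ a := by
  classical
  have hfd : FiniteDimensional (fixedField G) L := fd_fixed G
  obtain ⟨y, hy⟩ := Pool.Agent.W636.PG.exists_basis k M d hM
  obtain ⟨P, Pv, hP1, hP2, hPv⟩ := frame_fib hn hy hind
  obtain ⟨E, hE⟩ := Pool.Agent.W636.PG.exists_duals k M d y hy
  have hnK : Algebra.trdeg k (fixedField G) = (d + (r + 1) : ℕ) := trdeg_fixed G hn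
  obtain ⟨zK, hzK⟩ := Pool.Agent.W636.PG.exists_basis k (fixedField G) _ hnK
  have hessK : Algebra.EssFiniteType k (fixedField G) :=
    Pool.Agent.Y174.ess_down (L := L) hess zK hzK
  choose ext hext hext2 hext3 using Pool.Agent.Y174.pEXT k (fixedField G) L (d + (r + 1)) hnK
  -- the form on the base
  obtain ⟨m0, hm0, η, hη, Dη, h0, -⟩ := hB0
  have hgood : ∀ (w : Place k L), IsDivisorial w (d + (r + 1)) →
      BGoodP M d m0 δB w (fun l => (y l : L)) ((η 0 E : M) : L) := by
    intro w hw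
    refine base_locP M d (d + (r + 1)) m0 hM hn
      (fun y hy => Pool.Agent.W824.PG.fin_adj hessM y hy)
      (hη 0).1 hy hE hw (fun u hdu D hD => ?_)
    rcases (hη 0).2 u hdu D hD with h1 | ⟨s, -, -, h1⟩
    · exact Or.inl h1
    · right
      refine le_trans ?_ h1
      push_cast
      linarith
  have hηE : η 0 E ≠ 0 := by
    intro h1
    apply h0 0
    have h2 := (hη 0).1 (Matrix.of fun i j => Dη i (y j)) E
    have h3 : (fun i => ∑ j, (Matrix.of fun i j => Dη i (y j)) i j • E j) = Dη := by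
      funext i
      exact Pool.Agent.W73.PG.PULL.expand y hy E hE (Dη i)
    rw [h3] at h2
    rw [h2, h1, mul_zero]
  obtain ⟨φ, hφ⟩ : ∃ φ : Fin (d + (r + 1)) → Derivation k L L →ₗ[L] L,
      φ = fam (fun l => (y l : L)) θ := ⟨_, rfl⟩
  have hφP : eta φ P = 1 := by
    unfold eta
    have h1 : (Matrix.of fun i j => φ i (P j)) = 1 := by
      ext i j
      rw [Matrix.of_apply, hφ, hP1, Matrix.one_apply]
    rw [h1, Matrix.det_one]
  -- the sections on the cover
  obtain ⟨m, hm, ω, hω, D1, hD1, hDi⟩ := hL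
  obtain ⟨N, hN⟩ : ∃ N : ℕ, (m : ℝ) * Nat.card G ≤ N * ε := by
    obtain ⟨N, hN⟩ := exists_nat_ge ((m : ℝ) * Nat.card G / ε)
    exact ⟨N, (div_le_iff₀ hε).1 hN⟩
  have hη1 : eta φ D1 ≠ 0 := eta_ne_of_pluri G hn hm (hω 0).1 (hD1 0) (D2 := P)
    (by rw [hφP]; exact one_ne_zero)
  obtain ⟨Ψ, hΨ⟩ : ∃ Ψ : (Fin (d + (r + 1)) → Derivation k L L) → L,
      Ψ = fun D => ((η 0 E : M) : L) * eta φ D ^ m0 := ⟨_, rfl⟩
  have hΨpl : IsPluriForm k L (d + (r + 1)) m0 Ψ := by
    rw [hΨ]
    have h1 := pluri_smul (pluri_pow (eta_pluri φ) m0) ((η 0 E : M) : L)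
    rwa [one_mul] at h1
  have hΨ1 : Ψ D1 ^ N ≠ 0 := by
    rw [hΨ]
    exact pow_ne_zero _ (mul_ne_zero (fun h1 => hηE (Subtype.ext h1)) (pow_ne_zero _ hη1))
  refine pair_descent G hn (m := m + m0 * N) (by omega) δ (fun l D => ω l D * Ψ D ^ N)
    (fun l => pluri_mul (hω l).1 (pluri_pow hΨpl N)) ?_ D1
    (fun l => mul_ne_zero (hD1 l) hΨ1) ?_
  · intro v hv
    obtain ⟨w, e, hwv, hg⟩ := exists_rot G v hv
    refine ⟨w, e, hwv, fun D D' hD hDD l g => ?_⟩
    obtain ⟨h1, h2, h, ζ, hord, hζ, hrot⟩ := hg g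
    rw [← GeR.comp]
    have he0 : (0 : ℝ) ≤ e := Nat.cast_nonneg e
    have he1 : (1 : ℝ) ≤ e := by exact_mod_cast hwv.1
    have hm0' : (1 : ℝ) ≤ m0 := by exact_mod_cast hm0
    have hm' : (0 : ℝ) ≤ m := Nat.cast_nonneg m
    have hN0 : (0 : ℝ) ≤ N := Nat.cast_nonneg N
    have heG : (e : ℝ) ≤ Nat.card G := by
      have h3 : e ≤ Nat.card G := by
        rw [← hord, Subgroup.orderOf_coe]
        exact orderOf_le_card
      exact_mod_cast h3
    have hDext : D' = fun j => ext (D j) := by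
      funext j
      exact hext2 (D j) (D' j) (fun f => hDD j f)
    -- the values of the section
    have hω1 : GeR (w.comp (g : L ≃ₐ[k] L))
        (m * (1 - e) + -(m * δ' (w.comp (g : L ≃ₐ[k] L)))) (ω l D') := by
      rw [hDext]
      refine ge_formR hn hess hnK hessK h1 hv (ω l) (hω l).1 (fun D'' hD'' => ?_) ext
        (fun D f => hext D f) (fun D D'' h => hext2 D D'' h) D hD
      rcases (hω l).2 _ h2 D'' hD'' with h | ⟨s', hs', hs0', hle⟩
      · exact Or.inl h
      · refine Or.inr ?_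
        simpa using hle
    have hdel := hδ' v (w.comp (g : L ≃ₐ[k] L)) e h1
    have hRT' := fun (hB : ¬ Bd v) (he2 : 2 ≤ e) (θ' : Fin (r + 1) → Derivation k L L →ₗ[L] L)
        (a' : Fin (r + 1) → ℕ) (hθ' : ∀ i, θ' i ∈ V ∧ a' i < e ∧
          IsImage (h : L ≃ₐ[k] L) (θ' i) (ζ ^ a' i • θ' i)) (hi : IndepOver (m := d) M θ')
        (c : ℕ) (β : ℝ) (hc : BaseMult M δB (w.comp (g : L ≃ₐ[k] L)) c β) =>
      hRT h h.2 (fun h1 => by rw [h1, orderOf_one] at hord; omega) v _ hB h2
        (by rw [hord]; exact h1) (fix_of_rot hrot) ζ (by rw [hord]; exact hζ) θ' a'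
        (fun i => ⟨(hθ' i).1, by rw [hord]; exact (hθ' i).2.1, (hθ' i).2.2⟩) hi c β hc
    by_cases hcase : (e : ℝ) * (1 - δ v) ≤ 1
    · rw [max_eq_right (by linarith)] at hdel
      have h3 : GeR (w.comp (g : L ≃ₐ[k] L)) (-(m0 * (e * δ v))) (Ψ D') := by
        rw [hΨ, hφ]
        refine est_loc G hn hlogf hstab hB1 h1 h2 hord hζ hrot (δv := δ v) (fun _ => hδ0 v)
          (hδ1 v) (fun hB he u c hu => hB2 v _ u c hB h2 (by rw [← he]; exact h1) hu)
          (fun hB he2 θ' a' hθ' hi c β hc => ?_) (hgood _ h2) hθ hD hDD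
        have h4 := (hRT' hB he2 θ' a' hθ' hi c β hc).1
        rwa [hord] at h4
      have h4 := hω1.mul (h3.pow N)
      refine h4.mono ?_
      rw [hdel]
      push_cast
      apply le_of_eq
      ring
    · push Not at hcase
      rw [max_eq_left (by linarith)] at hdel
      have hB : ¬ Bd v := by
        intro hB
        have h3 := hδ1 v hB
        have h4 : (e : ℝ) * (1 - δ v) ≤ 0 :=
          mul_nonpos_of_nonneg_of_nonpos he0 (by linarith)
        linarith
      have he2 : 2 ≤ e := by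
        by_contra hcon
        have h3 : e = 1 := by
          have := hwv.1
          omega
        have h4 := hδ0 v
        rw [h3] at hcase
        push_cast at hcase
        linarith
      have h3 : GeR (w.comp (g : L ≃ₐ[k] L)) (-(m0 * (e * (δ v - ε / e)))) (Ψ D') := by
        rw [hΨ, hφ]
        refine est_loc G hn hlogf hstab hB1 h1 h2 hord hζ hrot (δv := δ v - ε / e)
          (fun h => by omega) (fun h => absurd h hB) (fun _ h => by omega)
          (fun _ _ θ' a' hθ' hi c β hc => ?_) (hgood _ h2) hθ hD hDD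
        have h4 := (hRT' hB he2 θ' a' hθ' hi c β hc).2
        rw [hord] at h4
        have h5 := h4 hcase
        have h6 : (e : ℝ) * (1 - (δ v - ε / e)) = e * (1 - δ v) + ε := by
          field_simp
          ring
        rw [h6]
        exact h5
      have h4 := hω1.mul (h3.pow N)
      refine h4.mono ?_
      rw [hdel]
      have h5 : (e : ℝ) * (δ v - ε / e) = e * δ v - ε := by
        field_simp
      rw [h5]
      have h6 : (m : ℝ) * e ≤ m * Nat.card G := mul_le_mul_of_nonneg_left heG hm'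
      have h7 : (N : ℝ) * ε * 1 ≤ N * ε * m0 :=
        mul_le_mul_of_nonneg_left hm0' (mul_nonneg hN0 hε.le)
      have h8 : (0 : ℝ) ≤ m * (e * δ v) := mul_nonneg hm' (mul_nonneg he0 (hδ0 v))
      push_cast
      nlinarith
  · have e1 : (fun l : Fin a => ω l.succ D1 * Ψ D1 ^ N / (ω 0 D1 * Ψ D1 ^ N)) =
        fun l => ω l.succ D1 / ω 0 D1 := by
      funext l
      rw [mul_div_mul_right _ _ hΨ1]
    rw [e1]
    exact hDi

end

end Pool.Agent.V11168.Pair
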